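import Pool.Agent.R533.GU.Sim

set_option autoImplicit false

/-! Execution of a straight-line program with given values of the registers. -/

namespace Pool.Agent.R533.NG

open Pool.Agent.H558R2 Pool.Agent.H622R3.SM

/-- The program only reads registers in `S` or written before. -/
def Ordd : Set Reg → List Instr → Prop
  | _, [] => True
  | S, I :: P => I.fst ∈ S ∧ I.snd ∈ S ∧ Ordd (insert I.dst S) P

theorem Ordd.mono : ∀ {P : List Instr} {S T : Set Reg}, S ⊆ T → Ordd S P → Ordd T P := by
  intro P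
  induction P with
  | nil => intro S T _ _; trivial
  | cons I P ih =>
    intro S T h hP
    exact ⟨h hP.1, h hP.2.1, ih (Set.insert_subset_insert h) hP.2.2⟩

theorem Ordd.append : ∀ {P Q : List Instr} {S : Set Reg}, Ordd S P →
    Ordd (S ∪ {r | ∃ I ∈ P, I.dst = r}) Q → Ordd S (P ++ Q) := by
  intro P
  induction P with
  | nil =>
    intro Q S _ hQ
    exact hQ.mono fun r hr => hr.elim id fun ⟨I, hI, _⟩ => absurd hI (by simp)
  | cons I P ih =>
    intro Q S hP hQ
    refine ⟨hP.1, hP.2.1, ih hP.2.2 (hQ.mono ?_)⟩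
    rintro r (hr | ⟨J, hJ, rfl⟩)
    · exact Or.inl (Set.mem_insert_of_mem _ hr)
    · rcases List.mem_cons.mp hJ with rfl | hJ
      · exact Or.inl (Set.mem_insert _ _)
      · exact Or.inr ⟨J, hJ, rfl⟩

theorem Ordd.all : ∀ {P : List Instr} {S : Set Reg},
    (∀ I ∈ P, I.fst ∈ S ∧ I.snd ∈ S) → Ordd S P := by
  intro P
  induction P with
  | nil => intro S _; trivial
  | cons I P ih =>
    intro S h
    refine ⟨(h I (by simp)).1, (h I (by simp)).2, ih fun J hJ => ?_⟩
    have := h J (List.mem_cons_of_mem _ hJ)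
    exact ⟨Set.mem_insert_of_mem _ this.1, Set.mem_insert_of_mem _ this.2⟩

/-- A chain of instructions. -/
theorem Ordd.chain {S : Set Reg} (f : ℕ → Instr) (c : ℕ → Reg) (h0 : c 0 ∈ S) : ∀ N : ℕ,
    (∀ t < N, ((f t).fst ∈ S ∨ (f t).fst = c t) ∧ ((f t).snd ∈ S ∨ (f t).snd = c t) ∧
      (f t).dst = c (t + 1)) → Ordd S ((List.range N).map f) := by
  intro N
  induction N with
  | zero => intro _; trivial
  | succ N ih =>
    intro h
    rw [List.range_succ, List.map_append]
    refine Ordd.append (ih fun t ht => h t (by omega)) ?_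
    have hc : c N ∈ S ∪ {r | ∃ I ∈ (List.range N).map f, I.dst = r} := by
      cases N with
      | zero => exact Or.inl h0
      | succ N =>
        exact Or.inr ⟨f N, List.mem_map.mpr ⟨N, List.mem_range.mpr (by omega), rfl⟩,
          (h N (by omega)).2.2⟩
    obtain ⟨h1, h2, -⟩ := h N (by omega)
    refine ⟨?_, ?_, trivial⟩
    · rcases h1 with h1 | h1
      · exact Or.inl h1
      · rw [h1]; exact hc
    · rcases h2 with h2 | h2
      · exact Or.inl h2
      · rw [h2]; exact hc

/-- Execution of a program whose equations are satisfied by `V`. -/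
theorem exec_val (V : Reg → ℝ) : ∀ (L : List Instr) (S : Set Reg) (ρ : Reg → ℝ), Ordd S L →
    (∀ r ∈ S, ρ r = V r) →
    (∀ I ∈ L, V I.dst = I.op.eval (V I.fst) (V I.snd) ∧ (I.op = Op.div → V I.snd ≠ 0)) →
    ∃ ρ', exec L ρ = some (ρ', L.map fun I => V I.dst) ∧ (∀ I ∈ L, ρ' I.dst = V I.dst) ∧
      (∀ r ∈ S, ρ' r = V r) ∧ ∀ r, (∀ I ∈ L, I.dst ≠ r) → ρ' r = ρ r := by
  intro L
  induction L with
  | nil =>
    intro S ρ _ h _
    exact ⟨ρ, rfl, by simp, h, fun r _ => rfl⟩
  | cons I L ih =>
    intro S ρ hO hS hV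
    have e1 := hS _ hO.1
    have e2 := hS _ hO.2.1
    have h1 := hV I (by simp)
    obtain ⟨ρ', g1, g2, g3, g4⟩ := ih (insert I.dst S) (Function.update ρ I.dst (V I.dst)) hO.2.2
      (fun r hr => by
        by_cases h : r = I.dst
        · subst h; rw [Function.update_self]
        · rw [Function.update_of_ne h]
          exact hS r (hr.resolve_left h))
      (fun J hJ => hV J (List.mem_cons_of_mem _ hJ))
    refine ⟨ρ', ?_, fun J hJ => ?_, fun r hr => g3 r (Set.mem_insert_of_mem _ hr),
      fun r hr => ?_⟩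
    · simp only [exec, List.map_cons]
      rw [e1, e2, if_neg (fun hh => h1.2 hh.1 hh.2), ← h1.1, g1]
      rfl
    · rcases List.mem_cons.mp hJ with rfl | hJ
      · exact g3 _ (Set.mem_insert _ _)
      · exact g2 J hJ
    · rw [g4 r fun J hJ => hr J (List.mem_cons_of_mem _ hJ)]
      exact Function.update_of_ne (Ne.symm (hr I (by simp))) _ _

end Pool.Agent.R533.NG
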