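import Pool.Agent.R533.NG.Cls
import Pool.Agent.R533.NG.Exec
import Pool.Agent.R533.GU.Ok

set_option autoImplicit false

/-! The initial program, and the values of its registers. -/

namespace Pool.Agent.R533.NG

open Pool.Agent.H558R2 Pool.Agent.H622R3.SM Pool.Agent.R533.GU

variable {m n : ℕ}

/-- The number of doublings. -/
def pw (k m n : ℕ) : ℕ := (bigN k m n + bigN k m n) ^ k

/-- One step of the summation. -/
def sumI (n : ℕ) (h : List Outcome) (t : ℕ) : Instr :=
  if h.getD t none = some false then ⟨Op.sub, [6, t + 1], [6, t], reg n t⟩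
  else ⟨Op.add, [6, t + 1], [6, t], reg n t⟩

/-- One doubling. -/
def dblI (p : ℕ) : Instr := ⟨Op.add, [8, p + 1], [8, p], [8, p]⟩

/-- One product. -/
def mulI (n t : ℕ) : Instr := ⟨Op.mul, [7, t], [9], reg n t⟩

/-- The first part of the initial program. -/
def preI (k m n : ℕ) (h : List Outcome) : List Instr :=
  [⟨Op.add, [6, 0], [2], []⟩] ++ ((List.range (nt m n)).map (sumI n h) ++
  ([⟨Op.add, [8, 0], [6, nt m n], []⟩] ++ ((List.range (pw k m n)).map dblI ++
  ([⟨Op.div, [9], [2], [8, pw k m n]⟩] ++ (List.range (nt m n)).map (mulI n)))))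

/-- Positive part of the register of the test `t`. -/
def posJ (h : List Outcome) (t : ℕ) (dst : Reg) : List Instr :=
  if h.getD t none = some true then [⟨Op.add, dst, [2], [7, t]⟩] else [⟨Op.add, dst, [2], []⟩]

/-- Negative part of the register of the test `t`. -/
def negJ (h : List Outcome) (t : ℕ) (dst : Reg) : List Instr :=
  if h.getD t none = some false then [⟨Op.sub, dst, [2], [7, t]⟩] else [⟨Op.add, dst, [2], []⟩]

/-- The datum of a cell. -/
def datJ (n : ℕ) (h : List Outcome) (R c : ℕ) (dst : Reg) : List Instr :=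
  if (c - 1) / 2 < n then
    (if c % 2 = 1 then posJ h ((R - 1) * (n + 1) + (c - 1) / 2) dst
      else negJ h ((R - 1) * (n + 1) + (c - 1) / 2) dst)
  else
    (if c % 2 = 1 then negJ h ((R - 1) * (n + 1) + (c - 1) / 2) dst
      else posJ h ((R - 1) * (n + 1) + (c - 1) / 2) dst)

/-- An entry of the matrix. -/
def entJ (n : ℕ) (h : List Outcome) (k R c : ℕ) (dst : Reg) : List Instr :=
  if k = 1 then [⟨Op.add, dst, [2], []⟩]
  else if k = 2 then [⟨Op.sub, dst, [], [2]⟩]
  else if k = 3 then datJ n h R c dst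
  else []

/-- A row of the matrix. -/
def rowJ (m n : ℕ) (h : List Outcome) (i : ℕ) : List Instr :=
  entJ n h (kin m n (posC n i).1 (posC n i).2).1 ((posC n i).2 / 6) ((posC n i).1 / 6)
    [5, 0, i, (posC n i).2 * wid n + ((posC n i).1 - 1) / 2] ++
  (entJ n h (kin m n (posC n i).1 (posC n i).2).2.1 ((posC n i).2 / 6) ((posC n i).1 / 6)
    [5, 0, i, (posC n i).2 * wid n + ((posC n i).1 + 1) / 2] ++
  (entJ n h (kin m n (posC n i).1 (posC n i).2).2.2.1 ((posC n i).2 / 6) ((posC n i).1 / 6)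
    [5, 0, i, ((posC n i).2 - 1) * wid n + (posC n i).1 / 2] ++
  entJ n h (kin m n (posC n i).1 (posC n i).2).2.2.2 ((posC n i).2 / 6) ((posC n i).1 / 6)
    [5, 0, i, ((posC n i).2 + 1) * wid n + (posC n i).1 / 2]))

/-- The second part of the initial program. -/
def wrI (m n : ℕ) (h : List Outcome) : List Instr :=
  (List.range (size m n)).flatMap (rowJ m n h) ++
    [⟨Op.add, [5, 1, top n], [2], []⟩, ⟨Op.add, [5, 2], [2], []⟩]

/-- The initial program. -/
def iniJ (k m n : ℕ) (h : List Outcome) : List Instr := preI k m n h ++ wrI m n h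

/-- The algorithm. -/
def algN (k : ℕ) (α : Alg) : Alg := fun m n h =>
  if h.length < nt m n then ([], Test.sign (reg n h.length))
  else ((if h.length = nt m n then iniJ k m n h else []) ++
      (α (bigN k m n) (bigN k m n) (h.drop (nt m n))).1.map renI,
    renT (α (bigN k m n) (bigN k m n) (h.drop (nt m n))).2)

/-! ### The values -/

/-- The partial sums. -/
noncomputable def tsum (A : Matrix (Fin m) (Fin n) ℝ) (b : Fin m → ℝ) (t : ℕ) : ℝ :=
  1 + ∑ s ∈ Finset.range t, |start A b (reg n s)|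

/-- The factor `θ`. -/
noncomputable def theta (k : ℕ) (A : Matrix (Fin m) (Fin n) ℝ) (b : Fin m → ℝ) : ℝ :=
  1 / (2 ^ pw k m n * tsum A b (nt m n))

/-- The values of the registers. -/
noncomputable def vv (k : ℕ) (A : Matrix (Fin m) (Fin n) ℝ) (b : Fin m → ℝ) : Reg → ℝ
  | [6, t] => tsum A b t
  | [8, p] => 2 ^ p * tsum A b (nt m n)
  | [9] => theta k A b
  | [7, t] => theta k A b * start A b (reg n t)
  | 5 :: r => start (gmat (nd (theta k A b) A b) m n) (grhs ℝ m n) r
  | r => start A b r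

/-- The registers of the input. -/
def Base : Set Reg := {r | r.headD 0 < 5}

variable (k : ℕ) (A : Matrix (Fin m) (Fin n) ℝ) (b : Fin m → ℝ)

theorem vv_base {r : Reg} (hr : r ∈ Base) : vv k A b r = start A b r := by
  unfold Base at hr
  unfold vv
  split
  · simp at hr
  · simp at hr
  · simp at hr
  · simp at hr
  · simp at hr
  · rfl

theorem nil_base : ([] : Reg) ∈ Base := by simp [Base]

theorem two_base : ([2] : Reg) ∈ Base := by simp [Base]

theorem reg_base (t : ℕ) : reg n t ∈ Base := by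
  unfold reg Base
  split_ifs <;> simp

theorem vv_nil : vv k A b [] = 0 := by
  rw [vv_base k A b nil_base]; rfl

theorem vv_two : vv k A b [2] = 1 := by
  rw [vv_base k A b two_base]; rfl

theorem vv_reg (t : ℕ) : vv k A b (reg n t) = start A b (reg n t) :=
  vv_base k A b (reg_base t)

theorem tsum_pos (t : ℕ) : 1 ≤ tsum A b t := by
  unfold tsum
  have : 0 ≤ ∑ s ∈ Finset.range t, |start A b (reg n s)| :=
    Finset.sum_nonneg fun _ _ => abs_nonneg _
  linarith

theorem theta_pos : 0 < theta k A b := by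
  have := tsum_pos A b (nt m n)
  unfold theta
  positivity

theorem le_tsum (t : ℕ) (ht : t < nt m n) : |start A b (reg n t)| ≤ tsum A b (nt m n) := by
  unfold tsum
  have : |start A b (reg n t)| ≤ ∑ s ∈ Finset.range (nt m n), |start A b (reg n s)| :=
    Finset.single_le_sum (f := fun s => |start A b (reg n s)|) (fun _ _ => abs_nonneg _)
      (Finset.mem_range.mpr ht)
  linarith

/-- The first part of the program satisfies its equations. -/
theorem pre_eq (I : Instr) (hI : I ∈ preI k m n (outs m n (start A b))) :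
    vv k A b I.dst = I.op.eval (vv k A b I.fst) (vv k A b I.snd) ∧
      (I.op = Op.div → vv k A b I.snd ≠ 0) := by
  have hT := tsum_pos A b (nt m n)
  unfold preI at hI
  simp only [List.mem_append, List.mem_singleton, List.mem_map, List.mem_range] at hI
  rcases hI with rfl | ⟨t, ht, rfl⟩ | rfl | ⟨p, hp, rfl⟩ | rfl | ⟨t, ht, rfl⟩
  · refine ⟨?_, by simp⟩
    simp only [Op.eval, vv_nil, vv_two]
    simp [vv, tsum]
  · have h1 : vv k A b [6, t + 1] = tsum A b (t + 1) := rfl
    have h2 : vv k A b [6, t] = tsum A b t := rfl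
    have h3 : tsum A b (t + 1) = tsum A b t + |start A b (reg n t)| := by
      unfold tsum
      rw [Finset.sum_range_succ]
      ring
    unfold sumI
    rw [outs_get _ t ht]
    split_ifs with hs
    · rw [signOut_false] at hs
      refine ⟨?_, by simp⟩
      simp only [Op.eval, vv_reg, h1, h2, h3]
      rw [abs_of_neg hs]
      ring
    · rw [signOut_false] at hs
      refine ⟨?_, by simp⟩
      simp only [Op.eval, vv_reg, h1, h2, h3]
      rw [abs_of_nonneg (not_lt.mp hs)]
  · refine ⟨?_, by simp⟩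
    simp only [Op.eval, vv_nil]
    simp [vv]
  · refine ⟨?_, by simp [dblI]⟩
    have h1 : vv k A b [8, p + 1] = 2 ^ (p + 1) * tsum A b (nt m n) := rfl
    have h2 : vv k A b [8, p] = 2 ^ p * tsum A b (nt m n) := rfl
    simp only [dblI, Op.eval, h1, h2]
    ring
  · have h1 : vv k A b [8, pw k m n] = 2 ^ (pw k m n) * tsum A b (nt m n) := rfl
    refine ⟨?_, fun _ => ?_⟩
    · simp only [Op.eval, vv_two, h1]
      rfl
    · simp only [h1]
      positivity
  · refine ⟨?_, by simp [mulI]⟩
    simp only [mulI, Op.eval, vv_reg]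
    rfl

theorem pre_ord (h : List Outcome) : Ordd Base (preI k m n h) := by
  have e2 := two_base
  have e0 := nil_base
  unfold preI
  refine Ordd.append ⟨e2, e0, trivial⟩ ?_
  refine Ordd.append (Ordd.chain _ (fun t => [6, t]) (Or.inr ⟨_, List.mem_singleton.mpr rfl, rfl⟩)
    _ fun t _ => ?_) ?_
  · unfold sumI
    split_ifs
    · exact ⟨Or.inr rfl, Or.inl (Or.inl (reg_base t)), rfl⟩
    · exact ⟨Or.inr rfl, Or.inl (Or.inl (reg_base t)), rfl⟩
  refine Ordd.append ⟨?_, Or.inl (Or.inl e0), trivial⟩ ?_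
  · rcases Nat.eq_zero_or_pos (nt m n) with h0 | h0
    · rw [h0]
      exact Or.inl (Or.inr ⟨_, List.mem_singleton.mpr rfl, rfl⟩)
    · refine Or.inr ⟨_, List.mem_map.mpr ⟨nt m n - 1, List.mem_range.mpr (by omega), rfl⟩, ?_⟩
      unfold sumI
      split_ifs <;> simp only [] <;> rw [Nat.sub_add_cancel h0]
  refine Ordd.append (Ordd.chain _ (fun p => [8, p]) (Or.inr ⟨_, List.mem_singleton.mpr rfl, rfl⟩)
    _ fun p _ => ⟨Or.inr rfl, Or.inr rfl, rfl⟩) ?_
  refine Ordd.append ⟨Or.inl (Or.inl (Or.inl (Or.inl e2))), ?_, trivial⟩ ?_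
  · rcases Nat.eq_zero_or_pos (pw k m n) with h0 | h0
    · rw [h0]
      exact Or.inl (Or.inr ⟨_, List.mem_singleton.mpr rfl, rfl⟩)
    · refine Or.inr ⟨_, List.mem_map.mpr ⟨pw k m n - 1, List.mem_range.mpr (by omega), rfl⟩, ?_⟩
      unfold dblI
      simp only []
      rw [Nat.sub_add_cancel h0]
  · refine Ordd.all fun I hI => ?_
    obtain ⟨t, -, rfl⟩ := List.mem_map.mp hI
    exact ⟨Or.inr ⟨_, List.mem_singleton.mpr rfl, rfl⟩,
      Or.inl (Or.inl (Or.inl (Or.inl (Or.inl (reg_base t)))))⟩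

/-- The registers which are read by the second part. -/
def Rd (m n : ℕ) : Set Reg := {r | r = [] ∨ r = [2] ∨ ∃ t < nt m n, r = [7, t]}

/-- A good list of instructions for the value `v`. -/
def GoodJ (dst : Reg) (v : ℝ) (L : List Instr) : Prop :=
  (∀ I ∈ L, I.dst = dst ∧ I.op ≠ Op.div ∧ I.fst ∈ Rd m n ∧ I.snd ∈ Rd m n ∧
    I.op.eval (vv k A b I.fst) (vv k A b I.snd) = v) ∧ (L = [] → v = 0)

variable {k A b}

theorem good_posJ (t : ℕ) (ht : t < nt m n) (dst : Reg) :
    GoodJ k A b dst (1 + theta k A b * max (start A b (reg n t)) 0)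
      (posJ (outs m n (start A b)) t dst) := by
  have h7 : vv k A b [7, t] = theta k A b * start A b (reg n t) := rfl
  unfold posJ
  rw [outs_get _ t ht]
  by_cases h : 0 < start A b (reg n t)
  · rw [if_pos ((signOut_true _).mpr h)]
    refine ⟨fun I hI => ?_, by simp⟩
    rw [List.mem_singleton] at hI
    subst hI
    refine ⟨rfl, by simp, Or.inr (Or.inl rfl), Or.inr (Or.inr ⟨t, ht, rfl⟩), ?_⟩
    rw [max_eq_left h.le]
    simp only [Op.eval, vv_two, h7]
  · rw [if_neg (fun e => h ((signOut_true _).mp e))]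
    refine ⟨fun I hI => ?_, by simp⟩
    rw [List.mem_singleton] at hI
    subst hI
    refine ⟨rfl, by simp, Or.inr (Or.inl rfl), Or.inl rfl, ?_⟩
    rw [max_eq_right (not_lt.mp h)]
    simp only [Op.eval, vv_two, vv_nil, mul_zero]

theorem good_negJ (t : ℕ) (ht : t < nt m n) (dst : Reg) :
    GoodJ k A b dst (1 + theta k A b * max (-start A b (reg n t)) 0)
      (negJ (outs m n (start A b)) t dst) := by
  have h7 : vv k A b [7, t] = theta k A b * start A b (reg n t) := rfl
  unfold negJ
  rw [outs_get _ t ht]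
  by_cases h : start A b (reg n t) < 0
  · rw [if_pos ((signOut_false _).mpr h)]
    refine ⟨fun I hI => ?_, by simp⟩
    rw [List.mem_singleton] at hI
    subst hI
    refine ⟨rfl, by simp, Or.inr (Or.inl rfl), Or.inr (Or.inr ⟨t, ht, rfl⟩), ?_⟩
    rw [max_eq_left (by linarith)]
    simp only [Op.eval, vv_two, h7]
    ring
  · rw [if_neg (fun e => h ((signOut_false _).mp e))]
    refine ⟨fun I hI => ?_, by simp⟩
    rw [List.mem_singleton] at hI
    subst hI
    refine ⟨rfl, by simp, Or.inr (Or.inl rfl), Or.inl rfl, ?_⟩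
    have h' := not_lt.mp h
    rw [max_eq_right (by linarith)]
    simp only [Op.eval, vv_two, vv_nil, mul_zero]

theorem good_datJ (R c : ℕ) (h1 : 1 ≤ R)
    (h2 : R ≤ m) (h3 : 1 ≤ c) (h4 : c ≤ 2 * n + 2) (dst : Reg) :
    GoodJ k A b dst (nd (theta k A b) A b R c) (datJ n (outs m n (start A b)) R c dst) := by
  obtain ⟨i, rfl⟩ : ∃ i, R = i + 1 := ⟨R - 1, by omega⟩
  have hj : (c - 1) / 2 ≤ n := by omega
  have ht : (i + 1 - 1) * (n + 1) + (c - 1) / 2 < nt m n := by
    unfold nt
    have : (i + 1) * (n + 1) ≤ m * (n + 1) := Nat.mul_le_mul_right _ h2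
    rw [Nat.add_sub_cancel]
    have h5 : (i + 1) * (n + 1) = i * (n + 1) + (n + 1) := by ring
    omega
  have e1 : ((i + 1 - 1) * (n + 1) + (c - 1) / 2) / (n + 1) = i := by
    rw [Nat.add_sub_cancel, mul_comm, Nat.mul_add_div (by omega), Nat.div_eq_of_lt (by omega)]
    rfl
  have e2 : ((i + 1 - 1) * (n + 1) + (c - 1) / 2) % (n + 1) = (c - 1) / 2 := by
    rw [Nat.add_sub_cancel, mul_comm, Nat.mul_add_mod, Nat.mod_eq_of_lt (by omega)]
  have hp := good_posJ (k := k) (A := A) (b := b) _ ht dst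
  have hn := good_negJ (k := k) (A := A) (b := b) _ ht dst
  unfold datJ nd dat
  by_cases hlt : (c - 1) / 2 < n
  · have er : start A b (reg n ((i + 1 - 1) * (n + 1) + (c - 1) / 2)) =
        ext A b (i + 1 - 1) ((c - 1) / 2) := by
      unfold reg
      rw [e1, e2, if_pos hlt, start_A A b i _ (by omega) hlt]
      unfold ext
      rw [Nat.add_sub_cancel, dif_pos (by omega), dif_pos hlt]
    rw [er] at hp hn
    rw [if_pos hlt]
    by_cases hc : c % 2 = 1
    · rw [if_pos hc, if_pos hc]; exact hp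
    · rw [if_neg hc, if_neg hc]; exact hn
  · have er : start A b (reg n ((i + 1 - 1) * (n + 1) + (c - 1) / 2)) =
        -ext A b (i + 1 - 1) ((c - 1) / 2) := by
      unfold reg
      rw [e1, e2, if_neg hlt, start_b A b i (by omega)]
      unfold ext
      rw [Nat.add_sub_cancel, dif_pos (by omega), dif_neg hlt, if_pos (by omega), neg_neg]
    rw [er] at hp hn
    rw [neg_neg] at hn
    rw [if_neg hlt]
    by_cases hc : c % 2 = 1
    · rw [if_pos hc, if_pos hc]; exact hn
    · rw [if_neg hc, if_neg hc]; exact hp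

theorem good_entJ (j R c : ℕ)
    (hk : j = 3 → 1 ≤ R ∧ R ≤ m ∧ 1 ≤ c ∧ c ≤ 2 * n + 2) (dst : Reg) :
    GoodJ k A b dst (val (nd (theta k A b) A b R c) j)
      (entJ n (outs m n (start A b)) j R c dst) := by
  unfold entJ
  by_cases h1 : j = 1
  · subst h1
    rw [if_pos rfl, val_one]
    refine ⟨fun I hI => ?_, by simp⟩
    rw [List.mem_singleton] at hI
    subst hI
    exact ⟨rfl, by simp, Or.inr (Or.inl rfl), Or.inl rfl, by simp [Op.eval, vv_two, vv_nil]⟩
  rw [if_neg h1]
  by_cases h2 : j = 2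
  · subst h2
    rw [if_pos rfl, val_two]
    refine ⟨fun I hI => ?_, by simp⟩
    rw [List.mem_singleton] at hI
    subst hI
    exact ⟨rfl, by simp, Or.inl rfl, Or.inr (Or.inl rfl), by simp [Op.eval, vv_two, vv_nil]⟩
  rw [if_neg h2]
  by_cases h3 : j = 3
  · subst h3
    rw [if_pos rfl, val_three]
    obtain ⟨g1, g2, g3, g4⟩ := hk rfl
    exact good_datJ R c g1 g2 g3 g4 dst
  rw [if_neg h3]
  refine ⟨by simp, fun _ => ?_⟩
  unfold val
  rw [if_neg h1, if_neg h2, if_neg h3]

end Pool.Agent.R533.NG
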