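import Pool.Agent.R533.NG.Ini
import Pool.Agent.R533.GU.Dec

set_option autoImplicit false

/-! Encoding lengths. -/

namespace Pool.Agent.R533.NG

open Pool.Agent.H558R2 Pool.Agent.H622R3.SM Pool.Agent.R533.GU

/-- The number `v` is a fraction with numerator and denominator at most `2 ^ s`. -/
def Bd (v : ℝ) (s : ℕ) : Prop :=
  ∃ (p : ℤ) (d : ℕ), 1 ≤ d ∧ d ≤ 2 ^ s ∧ p.natAbs ≤ 2 ^ s ∧ v = (p : ℝ) / d

theorem Bd.mono {v : ℝ} {s t : ℕ} (h : Bd v s) (hst : s ≤ t) : Bd v t := by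
  obtain ⟨p, d, h1, h2, h3, h4⟩ := h
  have := Nat.pow_le_pow_right (show 0 < 2 by norm_num) hst
  exact ⟨p, d, h1, h2.trans this, h3.trans this, h4⟩

theorem Bd.zero : Bd 0 0 := ⟨0, 1, by simp, by simp, by simp, by simp⟩

theorem Bd.one : Bd 1 0 := ⟨1, 1, by simp, by simp, by simp, by simp⟩

theorem Bd.pow (p : ℕ) : Bd (2 ^ p) p :=
  ⟨2 ^ p, 1, le_rfl, Nat.one_le_two_pow, by rw [Int.natAbs_pow]; rfl, by push_cast; simp⟩

theorem Bd.neg {v : ℝ} {s : ℕ} (h : Bd v s) : Bd (-v) s := by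
  obtain ⟨p, d, h1, h2, h3, h4⟩ := h
  exact ⟨-p, d, h1, h2, by rw [Int.natAbs_neg]; exact h3, by rw [h4]; push_cast; ring⟩

theorem Bd.abs {v : ℝ} {s : ℕ} (h : Bd v s) : Bd |v| s := by
  rcases abs_choice v with e | e
  · rw [e]; exact h
  · rw [e]; exact h.neg

theorem Bd.add {v w : ℝ} {s t : ℕ} (h : Bd v s) (h' : Bd w t) : Bd (v + w) (s + t + 1) := by
  obtain ⟨p, d, h1, h2, h3, h4⟩ := h
  obtain ⟨p', d', h1', h2', h3', h4'⟩ := h'
  refine ⟨p * d' + p' * d, d * d', Nat.mul_pos h1 h1', ?_, ?_, ?_⟩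
  · calc d * d' ≤ 2 ^ s * 2 ^ t := Nat.mul_le_mul h2 h2'
      _ = 2 ^ (s + t) := (pow_add _ _ _).symm
      _ ≤ _ := Nat.pow_le_pow_right (by norm_num) (by omega)
  · calc (p * d' + p' * d).natAbs ≤ (p * d').natAbs + (p' * d).natAbs := Int.natAbs_add_le _ _
      _ = p.natAbs * d' + p'.natAbs * d := by
        rw [Int.natAbs_mul, Int.natAbs_mul, Int.natAbs_natCast, Int.natAbs_natCast]
      _ ≤ 2 ^ s * 2 ^ t + 2 ^ t * 2 ^ s :=
        Nat.add_le_add (Nat.mul_le_mul h3 h2') (Nat.mul_le_mul h3' h2)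
      _ = 2 ^ (s + t + 1) := by ring
  · have e1 : (d : ℝ) ≠ 0 := by exact_mod_cast (by omega : d ≠ 0)
    have e2 : (d' : ℝ) ≠ 0 := by exact_mod_cast (by omega : d' ≠ 0)
    rw [h4, h4']
    push_cast
    field_simp

theorem Bd.mul {v w : ℝ} {s t : ℕ} (h : Bd v s) (h' : Bd w t) : Bd (v * w) (s + t) := by
  obtain ⟨p, d, h1, h2, h3, h4⟩ := h
  obtain ⟨p', d', h1', h2', h3', h4'⟩ := h'
  refine ⟨p * p', d * d', Nat.mul_pos h1 h1', ?_, ?_, ?_⟩
  · rw [pow_add]; exact Nat.mul_le_mul h2 h2'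
  · rw [pow_add, Int.natAbs_mul]; exact Nat.mul_le_mul h3 h3'
  · rw [h4, h4']
    push_cast
    ring

theorem Bd.inv {v : ℝ} {s : ℕ} (h : Bd v s) (hv : 0 < v) : Bd (1 / v) s := by
  obtain ⟨p, d, h1, h2, h3, h4⟩ := h
  have hd : (0 : ℝ) < d := by exact_mod_cast h1
  have hp : 0 < p := by
    have h5 : (0 : ℝ) < p := by
      rw [h4] at hv
      exact (div_pos_iff_of_pos_right hd).mp hv
    exact_mod_cast h5
  refine ⟨d, p.natAbs, Int.natAbs_pos.mpr hp.ne', h3, by rw [Int.natAbs_natCast]; exact h2, ?_⟩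
  have e : ((p.natAbs : ℕ) : ℝ) = (p : ℝ) := by
    rw [Nat.cast_natAbs, abs_of_pos hp]
  rw [e, h4, one_div_div]
  push_cast
  rfl

theorem Bd.of_rat (q : ℚ) : Bd q (bitLength q) := by
  refine ⟨q.num, q.den, q.den_pos, ?_, ?_, Rat.cast_def q⟩
  · have h : q.den < 2 ^ Nat.size q.den := Nat.lt_size_self _
    exact h.le.trans (Nat.pow_le_pow_right (by norm_num) (by unfold bitLength; omega))
  · have h : q.num.natAbs < 2 ^ Nat.size q.num.natAbs := Nat.lt_size_self _
    exact h.le.trans (Nat.pow_le_pow_right (by norm_num) (by unfold bitLength; omega))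

theorem Bd.rat {v : ℝ} {s : ℕ} (h : Bd v s) :
    ∃ q : ℚ, (q : ℝ) = v ∧ bitLength q ≤ 2 * s + 3 := by
  obtain ⟨p, d, h1, h2, h3, h4⟩ := h
  have hd : (d : ℤ) ≠ 0 := by exact_mod_cast (by omega : d ≠ 0)
  refine ⟨Rat.divInt p d, ?_, ?_⟩
  · rw [Rat.cast_divInt_of_ne_zero _ (by exact_mod_cast hd), h4]
    push_cast
    rfl
  · have hden : (Rat.divInt p d).den ≤ 2 ^ s := by
      have := Rat.den_dvd p d
      have h5 := Nat.le_of_dvd (by omega) (Int.natCast_dvd_natCast.mp this)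
      exact h5.trans h2
    have hnum : (Rat.divInt p d).num.natAbs ≤ 2 ^ s := by
      have h5 := Rat.num_dvd p hd
      by_cases hp : p = 0
      · subst hp; simp
      · exact (Int.natAbs_le_of_dvd_ne_zero h5 hp).trans h3
    have e1 : Nat.size (Rat.divInt p d).den ≤ s + 1 :=
      Nat.size_le.mpr (lt_of_le_of_lt hden (Nat.pow_lt_pow_right (by norm_num) (by omega)))
    have e2 : Nat.size (Rat.divInt p d).num.natAbs ≤ s + 1 :=
      Nat.size_le.mpr (lt_of_le_of_lt hnum (Nat.pow_lt_pow_right (by norm_num) (by omega)))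
    unfold bitLength
    omega

section

variable {m n : ℕ} {k : ℕ} {A : Matrix (Fin m) (Fin n) ℝ} {b : Fin m → ℝ} {L : ℕ}

/-- The input numbers. -/
theorem bd_start (hA : ∀ i j, Bd (A i j) L) (hb : ∀ i, Bd (b i) L) (r : Reg) :
    Bd (start A b r) L := by
  rcases start_cases A b r with e | e | ⟨i, j, -, e⟩ | ⟨i, -, e⟩
  · rw [e]; exact Bd.zero.mono (Nat.zero_le _)
  · rw [e]; exact Bd.one.mono (Nat.zero_le _)
  · rw [e]; exact hA i j
  · rw [e]; exact hb i

theorem bd_tsum (hA : ∀ i j, Bd (A i j) L) (hb : ∀ i, Bd (b i) L) (t : ℕ) :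
    Bd (tsum A b t) (t * (L + 1)) := by
  induction t with
  | zero =>
    have e : tsum A b 0 = 1 := by simp [tsum]
    rw [e]
    exact Bd.one.mono (Nat.zero_le _)
  | succ t ih =>
    have e : tsum A b (t + 1) = tsum A b t + |start A b (reg n t)| := by
      unfold tsum
      rw [Finset.sum_range_succ]
      ring
    rw [e]
    exact (ih.add (bd_start hA hb _).abs).mono (by ring_nf; omega)

theorem bd_theta (hA : ∀ i j, Bd (A i j) L) (hb : ∀ i, Bd (b i) L) :
    Bd (theta k A b) (pw k m n + nt m n * (L + 1)) := by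
  refine Bd.inv ((Bd.pow _).mul (bd_tsum hA hb _)) ?_
  have := tsum_pos A b (nt m n)
  positivity

theorem bd_dat (hA : ∀ i j, Bd (A i j) L) (hb : ∀ i, Bd (b i) L) (R c : ℕ) :
    Bd (dat A b R c) L := by
  have h1 : ∀ i j, Bd (ext A b i j) L := by
    intro i j
    unfold ext
    split_ifs
    · exact hA _ _
    · exact (hb _).neg
    · exact Bd.zero.mono (Nat.zero_le _)
    · exact Bd.zero.mono (Nat.zero_le _)
  have h2 : ∀ v : ℝ, Bd v L → Bd (max v 0) L := by
    intro v hv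
    rcases max_choice v 0 with e | e
    · rw [e]; exact hv
    · rw [e]; exact Bd.zero.mono (Nat.zero_le _)
  unfold dat
  split_ifs
  · exact h2 _ (h1 _ _)
  · exact h2 _ (h1 _ _).neg

/-- The bound for all numbers. -/
def sB (k m n L : ℕ) : ℕ := pw k m n + nt m n * (L + 1) + L + 1

theorem bd_gmat (hA : ∀ i j, Bd (A i j) L) (hb : ∀ i, Bd (b i) L) (i j : Fin (size m n)) :
    Bd (gmat (nd (theta k A b) A b) m n i j) (sB k m n L) := by
  have h0 : ∀ R c, Bd (nd (theta k A b) A b R c) (sB k m n L) := by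
    intro R c
    have h1 : Bd (1 + theta k A b * dat A b R c)
        (0 + (pw k m n + nt m n * (L + 1) + L) + 1) :=
      Bd.add Bd.one ((bd_theta hA hb).mul (bd_dat hA hb R c))
    exact h1.mono (by unfold sB; omega)
  have e : gmat (nd (theta k A b) A b) m n i j =
    val (nd (theta k A b) A b ((posC n i).2 / 6) ((posC n i).1 / 6)) (sel m n (posC n i).1
      (posC n i).2 (posV n j).1 (posV n j).2) := rfl
  rw [e]
  unfold val
  split_ifs
  · exact Bd.one.mono (Nat.zero_le _)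
  · exact Bd.one.neg.mono (Nat.zero_le _)
  · exact h0 _ _
  · exact Bd.zero.mono (Nat.zero_le _)

theorem bd_grhs (s : ℕ) (i : Fin (size m n)) : Bd (grhs ℝ m n i) s := by
  unfold grhs
  split_ifs
  · exact Bd.one.mono (Nat.zero_le _)
  · exact Bd.zero.mono (Nat.zero_le _)

/-- All numbers computed by the initial program are small. -/
theorem bd_ini (hA : ∀ i j, Bd (A i j) L) (hb : ∀ i, Bd (b i) L) (I : Instr)
    (hI : I ∈ iniJ k m n (outs m n (start A b))) : Bd (vv k A b I.dst) (sB k m n L) := by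
  rcases ini_dst (k := k) I hI with ⟨t, ht, e⟩ | ⟨p, hp, e⟩ | e | ⟨t, ht, e⟩ | ⟨r, e⟩
  · rw [e]
    have h1 : Bd (vv k A b [6, t]) (t * (L + 1)) := bd_tsum hA hb t
    refine h1.mono ?_
    have := Nat.mul_le_mul_right (L + 1) ht
    unfold sB
    omega
  · rw [e]
    have h1 : Bd (vv k A b [8, p]) (p + nt m n * (L + 1)) :=
      (Bd.pow p).mul (bd_tsum hA hb (nt m n))
    exact h1.mono (by unfold sB; omega)
  · rw [e]
    have h1 : Bd (vv k A b [9]) (pw k m n + nt m n * (L + 1)) := bd_theta hA hb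
    exact h1.mono (by unfold sB; omega)
  · rw [e]
    have h1 : Bd (vv k A b [7, t]) (pw k m n + nt m n * (L + 1) + L) :=
      (bd_theta hA hb).mul (bd_start hA hb _)
    exact h1.mono (by unfold sB; omega)
  · rw [e]
    have h0 : vv k A b (5 :: r) =
        start (gmat (nd (theta k A b) A b) m n) (grhs ℝ m n) r := rfl
    rw [h0]
    rcases start_cases (gmat (nd (theta k A b) A b) m n) (grhs ℝ m n) r with
      e | e | ⟨i, j, -, e⟩ | ⟨i, -, e⟩
    · rw [e]; exact Bd.zero.mono (Nat.zero_le _)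
    · rw [e]; exact Bd.one.mono (Nat.zero_le _)
    · rw [e]; exact bd_gmat hA hb i j
    · rw [e]; exact bd_grhs _ i

end

end Pool.Agent.R533.NG
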