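import Pool.Agent.R533.GU.Feas

set_option autoImplicit false
set_option linter.unusedSimpArgs false

/-! The system on the grid, for data which are close to `1`. -/

namespace Pool.Agent.R533.NG

open Pool.Agent.R533.GU

variable {m n : ℕ}

/-- From the grid to the homogeneous system. -/
theorem back_gen (D : ℕ → ℕ → ℝ) (hD : ∀ R c, 0 ≤ D R c) (z : Fin (size m n) → ℝ)
    (hz : grhs ℝ m n ≤ (gmat D m n).mulVec z) :
    ∃ h : ℕ → ℝ, 1 ≤ h n ∧ ∀ i, i < m →
      0 ≤ ∑ j ∈ Finset.range (n + 1), (D (i + 1) (2 * j + 1) - D (i + 1) (2 * j + 2)) * h j := by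
  refine ⟨fun j => fz z (12 * j + 11) 4, norm D z hz, fun i hi => ?_⟩
  have hv : ∀ R c, 1 ≤ c → c ≤ 2 * n + 2 → 1 ≤ R → R ≤ m + 1 →
      fz z (6 * c + 3) (6 * R) ≤ fz z (6 * c + 3) 6 := by
    intro R c hc1 hc2 hR
    induction R, hR using Nat.le_induction with
    | base => intro _; exact le_rfl
    | succ R hR ih =>
      intro h
      have h1 := (cell D z hz R c (hD R c) hR (by omega) hc1 hc2).1
      rw [show 6 * (R + 1) = 6 * R + 6 by ring]
      exact h1.trans (ih (by omega))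
  have hh : ∀ c, c ≤ 2 * n + 2 → fz z (6 * (c + 1)) (6 * (i + 1) + 3) ≤
      ∑ k ∈ Finset.range c, D (i + 1) (k + 1) * fz z (6 * (k + 1) + 3) 6 := by
    intro c
    induction c with
    | zero =>
      intro _
      simpa using left D z hz (i + 1) (by omega) (by omega)
    | succ c ih =>
      intro h
      have h1 := (cell D z hz (i + 1) (c + 1) (hD _ _) (by omega) (by omega)
        (by omega) (by omega)).2
      have h2 := ih (by omega)
      have h3 := mul_le_mul_of_nonneg_left (hv (i + 1) (c + 1) (by omega) (by omega) (by omega)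
        (by omega)) (hD (i + 1) (c + 1))
      rw [Finset.sum_range_succ, show 6 * (c + 1 + 1) = 6 * (c + 1) + 6 by ring]
      linarith
  have h1 := right D z hz (i + 1) (by omega) (by omega)
  have h2 := hh (2 * n + 2) le_rfl
  rw [show 2 * n + 2 = 2 * (n + 1) by ring, sum_two] at h2
  rw [show 6 * (2 * (n + 1) + 1) = 6 * (2 * n + 3) by ring] at h2
  refine (h1.trans h2).trans (Finset.sum_le_sum fun j hj => ?_)
  have hj' : j ≤ n := by have := Finset.mem_range.mp hj; omega
  have hp := pads D z hz j hj'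
  rw [show 2 * j + 1 + 1 = 2 * j + 2 by ring]
  have g1 := mul_le_mul_of_nonneg_left hp.1 (hD (i + 1) (2 * j + 1))
  have g2 := mul_le_mul_of_nonneg_left hp.2 (hD (i + 1) (2 * j + 2))
  calc _ ≤ D (i + 1) (2 * j + 1) * fz z (12 * j + 11) 4 +
        D (i + 1) (2 * j + 2) * -fz z (12 * j + 11) 4 := add_le_add g1 g2
    _ = _ := by ring

/-- From the homogeneous system to the grid. -/
theorem forth_gen (D : ℕ → ℕ → ℝ) (h : ℕ → ℝ) (hn : 1 ≤ h n)
    (hs : ∀ i, i < m →
      0 ≤ ∑ j ∈ Finset.range (n + 1), (D (i + 1) (2 * j + 1) - D (i + 1) (2 * j + 2)) * h j) :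
    ∃ z : Fin (size m n) → ℝ, grhs ℝ m n ≤ (gmat D m n).mulVec z := by
  let z : ℕ → ℝ := fun c => if c % 2 = 1 then h ((c - 1) / 2) else -h ((c - 1) / 2)
  have z1 : ∀ j, z (2 * j + 1) = h j := fun j => by
    simp only [z]
    rw [if_pos (by omega), show (2 * j + 1 - 1) / 2 = j by omega]
  have z2 : ∀ j, z (2 * j + 2) = -h j := fun j => by
    simp only [z]
    rw [if_neg (by omega), show (2 * j + 2 - 1) / 2 = j by omega]
  have hp : ∀ R, 1 ≤ R → R ≤ m → 0 ≤ psum D z R (2 * n + 3) := by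
    intro R h1 h2
    obtain ⟨i, rfl⟩ : ∃ i, R = i + 1 := ⟨R - 1, by omega⟩
    have h3 := hs i (by omega)
    unfold psum
    rw [show 2 * n + 3 - 1 = 2 * (n + 1) by omega, sum_two']
    refine h3.trans (le_of_eq (Finset.sum_congr rfl fun j _ => ?_))
    rw [show 2 * j + 1 + 1 = 2 * j + 2 by ring, z1, z2]
    ring
  have h21 : ∀ j, z (2 * j + 2) = -z (2 * j + 1) := fun j => by rw [z1, z2]
  refine ⟨sol m n D z, fun i => ?_⟩
  rw [row_eq]
  by_cases hi : (i : ℕ) = top n
  · have hp : posC n i = (12 * n + 11, 3) := by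
      have e : top n = 3 * wid n + (12 * n + 11) / 2 := by unfold top; omega
      rw [hi, e]
      exact posC_of n _ _ (by omega) (by unfold wid; omega)
    have hk : kin m n (12 * n + 11) 3 = (0, 0, 0, 1) := by
      rw [show 12 * n + 11 = 6 * (2 * n + 1) + 5 by ring, show (3 : ℕ) = 6 * 0 + 3 by norm_num,
        kin_loc m n 0 (2 * n + 1) 5 3 (by omega) (by omega), typ_six]
      rfl
    rw [hp]
    simp only [hk, val_zero, val_one, zero_mul]
    have e := ev (m := m) (n := n) D z 0 (2 * n + 1) 5 4 (12 * n + 11) (3 + 1) (by omega)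
      (by omega) (by omega) (by omega) (by omega) (by omega) (by omega)
    rw [e]
    simp only [grhs, hi]
    simp only [loc]
    norm_num
    rw [z1]
    exact hn
  · have h0 : grhs ℝ m n i = 0 := by
      simp only [grhs]
      rw [if_neg hi]
    rw [h0]
    have hx := Nat.div_add_mod (posC n i).1 6
    have hy := Nat.div_add_mod (posC n i).2 6
    have hr := rowForth (m := m) (n := n) D z h21 (by rw [z1]; linarith) hp ((posC n i).2 / 6)
      ((posC n i).1 / 6) ((posC n i).1 % 6) ((posC n i).2 % 6) (Nat.mod_lt _ (by norm_num))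
      (Nat.mod_lt _ (by norm_num))
    rw [hx, hy] at hr
    exact hr

/-- The data `1 + θ (data)`. -/
def nd {K : Type*} [Field K] [LinearOrder K] (θ : K) (A : Matrix (Fin m) (Fin n) K)
    (b : Fin m → K) (R c : ℕ) : K := 1 + θ * dat A b R c

theorem nd_nonneg (θ : ℝ) (hθ : 0 < θ) (A : Matrix (Fin m) (Fin n) ℝ) (b : Fin m → ℝ)
    (R c : ℕ) : 0 ≤ nd θ A b R c := by
  have h1 := dat_nonneg A b R c
  unfold nd
  have := mul_nonneg hθ.le h1
  linarith

theorem nd_sub (θ : ℝ) (A : Matrix (Fin m) (Fin n) ℝ) (b : Fin m → ℝ) (i j : ℕ) :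
    nd θ A b (i + 1) (2 * j + 1) - nd θ A b (i + 1) (2 * j + 2) = θ * ext A b i j := by
  unfold nd
  rw [dat_odd, dat_even, Nat.add_sub_cancel]
  nth_rw 3 [← max_sub (ext A b i j)]
  ring

/-- The system on the grid with the data `1 + θ (data)` is solvable iff `A x ≥ b` is. -/
theorem nd_iff (θ : ℝ) (hθ : 0 < θ) (A : Matrix (Fin m) (Fin n) ℝ) (b : Fin m → ℝ) :
    (∃ z : Fin (size m n) → ℝ, grhs ℝ m n ≤ (gmat (nd θ A b) m n).mulVec z) ↔
      ∃ x : Fin n → ℝ, b ≤ A.mulVec x := by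
  have key : ∀ (i : ℕ) (h : ℕ → ℝ), (0 ≤ ∑ j ∈ Finset.range (n + 1),
      (nd θ A b (i + 1) (2 * j + 1) - nd θ A b (i + 1) (2 * j + 2)) * h j) ↔
      0 ≤ ∑ j ∈ Finset.range (n + 1), ext A b i j * h j := by
    intro i h
    have e : ∑ j ∈ Finset.range (n + 1),
        (nd θ A b (i + 1) (2 * j + 1) - nd θ A b (i + 1) (2 * j + 2)) * h j =
        θ * ∑ j ∈ Finset.range (n + 1), ext A b i j * h j := by
      rw [Finset.mul_sum]
      exact Finset.sum_congr rfl fun j _ => by rw [nd_sub]; ring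
    rw [e]
    exact mul_nonneg_iff_of_pos_left hθ
  constructor
  · rintro ⟨z, hz⟩
    obtain ⟨h, hn, hs⟩ := back_gen (nd θ A b) (nd_nonneg θ hθ A b) z hz
    refine ⟨fun j => h j / h n, fun i => ?_⟩
    have h1 := (key i h).mp (hs i i.2)
    rw [ext_sum] at h1
    have hp : 0 < h n := by linarith
    have h2 : A.mulVec (fun j : Fin n => h j / h n) i = (∑ j : Fin n, A i j * h j) / h n := by
      unfold Matrix.mulVec dotProduct
      rw [Finset.sum_div]
      exact Finset.sum_congr rfl fun j _ => by ring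
    rw [h2, le_div_iff₀ hp]
    linarith
  · rintro ⟨x, hx⟩
    refine forth_gen (nd θ A b) (fun j => if h : j < n then x ⟨j, h⟩ else 1) ?_ ?_
    · simp
    · intro i hi
      rw [key]
      have h1 := ext_sum A b ⟨i, hi⟩ (fun j => if h : j < n then x ⟨j, h⟩ else 1)
      have h2 := hx ⟨i, hi⟩
      simp only at h1
      rw [h1]
      simp only [Fin.is_lt, dite_true, Fin.eta, lt_irrefl, dite_false, mul_one]
      unfold Matrix.mulVec dotProduct at h2
      linarith

/-! ### Padding by zero rows and columns -/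

/-- Padding of a matrix. -/
def padM {K : Type*} [Zero K] {S : ℕ} (N : ℕ) (G : Matrix (Fin S) (Fin S) K) :
    Matrix (Fin N) (Fin N) K := fun i j =>
  if h : (i : ℕ) < S ∧ (j : ℕ) < S then G ⟨i, h.1⟩ ⟨j, h.2⟩ else 0

/-- Padding of a vector. -/
def padV {K : Type*} [Zero K] {S : ℕ} (N : ℕ) (g : Fin S → K) : Fin N → K := fun i =>
  if h : (i : ℕ) < S then g ⟨i, h⟩ else 0

theorem pad_row {S N : ℕ} (hSN : S ≤ N) (G : Matrix (Fin S) (Fin S) ℝ) (z : Fin N → ℝ)
    (i : Fin N) : (padM N G).mulVec z i =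
      if h : (i : ℕ) < S then G.mulVec (fun j => z (Fin.castLE hSN j)) ⟨i, h⟩ else 0 := by
  unfold Matrix.mulVec dotProduct padM
  by_cases h : (i : ℕ) < S
  · rw [dif_pos h]
    have e : ∀ j : Fin N, (if h' : (i : ℕ) < S ∧ (j : ℕ) < S then G ⟨i, h'.1⟩ ⟨j, h'.2⟩ else 0) *
        z j = (fun k : ℕ => if h' : k < S then G ⟨i, h⟩ ⟨k, h'⟩ * z ⟨k, h'.trans_le hSN⟩
          else 0) j := by
      intro j
      by_cases hj : (j : ℕ) < S
      · rw [dif_pos ⟨h, hj⟩]
        simp only
        rw [dif_pos hj]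
      · rw [dif_neg (fun hh => hj hh.2)]
        simp only
        rw [dif_neg hj, zero_mul]
    rw [Finset.sum_congr rfl fun j _ => e j]
    rw [← Finset.sum_range (fun k : ℕ => if h' : k < S then G ⟨i, h⟩ ⟨k, h'⟩ *
      z ⟨k, h'.trans_le hSN⟩ else 0)]
    rw [← Finset.sum_subset (Finset.range_subset_range.mpr hSN) (fun k _ hk => by
      rw [dif_neg (by simpa using hk)])]
    rw [Finset.sum_range]
    refine Finset.sum_congr rfl fun j _ => ?_
    rw [dif_pos j.2]
    rfl
  · rw [dif_neg h]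
    refine Finset.sum_eq_zero fun j _ => ?_
    beta_reduce
    rw [dif_neg (fun hh : (i : ℕ) < S ∧ (j : ℕ) < S => h hh.1), zero_mul]

theorem pad_iff {S N : ℕ} (hSN : S ≤ N) (G : Matrix (Fin S) (Fin S) ℝ) (g : Fin S → ℝ) :
    (∃ z : Fin N → ℝ, padV N g ≤ (padM N G).mulVec z) ↔ ∃ z : Fin S → ℝ, g ≤ G.mulVec z := by
  constructor
  · rintro ⟨z, hz⟩
    refine ⟨fun j => z (Fin.castLE hSN j), fun i => ?_⟩
    have h := hz (Fin.castLE hSN i)
    rw [pad_row hSN] at h
    unfold padV at h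
    simp only [Fin.val_castLE, Fin.is_lt, dite_true, Fin.eta] at h
    exact h
  · rintro ⟨z, hz⟩
    refine ⟨fun j => if h : (j : ℕ) < S then z ⟨j, h⟩ else 0, fun i => ?_⟩
    rw [pad_row hSN]
    unfold padV
    by_cases h : (i : ℕ) < S
    · rw [dif_pos h, dif_pos h]
      simp only [Fin.val_castLE, Fin.is_lt, dite_true, Fin.eta]
      exact hz ⟨i, h⟩
    · rw [dif_neg h, dif_neg h]

end Pool.Agent.R533.NG
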