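import Pool.Agent.R533.NG.Defs
import Pool.Agent.R533.NG.Feas
import Pool.Agent.R533.GU.Cls

set_option autoImplicit false

/-! The padded system on the grid is in the class. -/

namespace Pool.Agent.R533.NG

open Pool.Agent.R533.GU

variable {m n : ℕ}

/-- The size after padding. -/
def bigN (k m n : ℕ) : ℕ := size m n ^ (k + 1)

theorem size_pos : 1 ≤ size m n := by
  unfold size wid
  exact Nat.succ_le_of_lt (by positivity)

theorem size_le_bigN (k : ℕ) : size m n ≤ bigN k m n := by
  unfold bigN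
  calc size m n = size m n ^ 1 := (pow_one _).symm
    _ ≤ size m n ^ (k + 1) := Nat.pow_le_pow_right size_pos (by omega)

/-- The entries of the padded matrix. -/
theorem padM_cases {S N : ℕ} (G : Matrix (Fin S) (Fin S) ℝ) (i j : Fin N)
    (h : padM N G i j ≠ 0) : ∃ (hi : (i : ℕ) < S) (hj : (j : ℕ) < S),
      padM N G i j = G ⟨i, hi⟩ ⟨j, hj⟩ := by
  unfold padM at h ⊢
  by_cases h' : (i : ℕ) < S ∧ (j : ℕ) < S
  · exact ⟨h'.1, h'.2, dif_pos h'⟩
  · rw [dif_neg h'] at h
    exact absurd rfl h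

theorem pad_ncard_row {S N : ℕ} (hSN : S ≤ N) (G : Matrix (Fin S) (Fin S) ℝ) (i : Fin N) (t : ℕ)
    (h : ∀ i', {j | G i' j ≠ 0}.ncard ≤ t) : {j | padM N G i j ≠ 0}.ncard ≤ t := by
  by_cases hi : (i : ℕ) < S
  · refine le_trans (Set.ncard_le_ncard (t := Fin.castLE hSN '' {j | G ⟨i, hi⟩ j ≠ 0}) ?_
      (Set.toFinite _)) ((Set.ncard_image_le (Set.toFinite _)).trans (h _))
    intro j hj
    obtain ⟨_, hj', e⟩ := padM_cases G i j hj
    exact ⟨⟨j, hj'⟩, by rw [Set.mem_ofPred_eq, ← e]; exact hj, Fin.ext rfl⟩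
  · have e : {j | padM N G i j ≠ 0} = ∅ := by
      ext j
      simp only [Set.mem_ofPred_eq, Set.mem_empty_iff_false, iff_false]
      intro hj
      exact hi (padM_cases G i j hj).1
    rw [e, Set.ncard_empty]
    omega

theorem pad_ncard_col {S N : ℕ} (hSN : S ≤ N) (G : Matrix (Fin S) (Fin S) ℝ) (j : Fin N) (t : ℕ)
    (h : ∀ j', {i | G i j' ≠ 0}.ncard ≤ t) : {i | padM N G i j ≠ 0}.ncard ≤ t := by
  by_cases hj : (j : ℕ) < S
  · refine le_trans (Set.ncard_le_ncard (t := Fin.castLE hSN '' {i | G i ⟨j, hj⟩ ≠ 0}) ?_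
      (Set.toFinite _)) ((Set.ncard_image_le (Set.toFinite _)).trans (h _))
    intro i hi
    obtain ⟨hi', _, e⟩ := padM_cases G i j hi
    exact ⟨⟨i, hi'⟩, by rw [Set.mem_ofPred_eq, ← e]; exact hi, Fin.ext rfl⟩
  · have e : {i | padM N G i j ≠ 0} = ∅ := by
      ext i
      simp only [Set.mem_ofPred_eq, Set.mem_empty_iff_false, iff_false]
      intro hi
      exact hj (padM_cases G i j hi).2.1
    rw [e, Set.ncard_empty]
    omega

/-- The place of an inequality. -/
def plC (n S i : ℕ) : ℤ × ℤ :=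
  if i < S then (((posC n i).1 : ℤ), ((posC n i).2 : ℤ)) else (-2 * (i : ℤ) - 2, 0)

/-- The place of an unknown. -/
def plV (n S j : ℕ) : ℤ × ℤ :=
  if j < S then (((posV n j).1 : ℤ), ((posV n j).2 : ℤ)) else (-2 * (j : ℤ) - 3, 0)

theorem near_system (k : ℕ) (D : ℕ → ℕ → ℝ)
    (hD : ∀ R c, 1 ≤ D R c ∧ D R c ≤ 1 + 1 / 2 ^ ((bigN k m n + bigN k m n) ^ k)) :
    NearSystem k (bigN k m n) (bigN k m n) (padM (bigN k m n) (gmat D m n))
      (padV (bigN k m n) (grhs ℝ m n)) := by
  have hSN := size_le_bigN (m := m) (n := n) k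
  have hG := grid_system (m := m) (n := n) D (fun R c => zero_le_one.trans (hD R c).1)
  have hrow : ∀ (i j j' : Fin (bigN k m n)),
      (padM (bigN k m n) (gmat D m n) i j ≠ 0 ∧ padM (bigN k m n) (gmat D m n) i j ≠ 1 ∧
        padM (bigN k m n) (gmat D m n) i j ≠ -1) →
      (padM (bigN k m n) (gmat D m n) i j' ≠ 0 ∧ padM (bigN k m n) (gmat D m n) i j' ≠ 1 ∧
        padM (bigN k m n) (gmat D m n) i j' ≠ -1) → j = j' := by
    intro i j j' h h'
    obtain ⟨a1, a2, a3⟩ := padM_cases _ i j h.1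
    obtain ⟨b1, b2, b3⟩ := padM_cases _ i j' h'.1
    rw [a3] at h
    rw [b3] at h'
    have := hG.row_one ⟨i, a1⟩ h h'
    exact Fin.ext (by simpa using congrArg Fin.val this)
  refine ⟨⟨fun i => plC n (size m n) i, fun j => plV n (size m n) j, ?_, ?_, ?_, ?_⟩,
    fun i => pad_ncard_row hSN _ i 3 hG.row_le, fun j => pad_ncard_col hSN _ j 3 hG.col_le,
    fun i j => ?_, ?_, fun i j hj j' hj' => hrow i j j' hj hj', fun j i hi i' hi' => ?_, ?_⟩
  · intro i i' h
    simp only [plC] at h
    by_cases h1 : (i : ℕ) < size m n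
    · by_cases h2 : (i' : ℕ) < size m n
      · rw [if_pos h1, if_pos h2] at h
        simp only [Prod.mk.injEq, Nat.cast_inj] at h
        have h3 : posC n (i : ℕ) = posC n (i' : ℕ) := Prod.ext h.1 h.2
        have h4 := posC_inj (m := m) (a₁ := ⟨i, h1⟩) (a₂ := ⟨i', h2⟩) h3
        exact Fin.ext (by simpa using congrArg Fin.val h4)
      · rw [if_pos h1, if_neg h2] at h
        simp only [Prod.mk.injEq] at h
        omega
    · by_cases h2 : (i' : ℕ) < size m n
      · rw [if_neg h1, if_pos h2] at h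
        simp only [Prod.mk.injEq] at h
        omega
      · rw [if_neg h1, if_neg h2] at h
        simp only [Prod.mk.injEq] at h
        exact Fin.ext (by omega)
  · intro i i' h
    simp only [plV] at h
    by_cases h1 : (i : ℕ) < size m n
    · by_cases h2 : (i' : ℕ) < size m n
      · rw [if_pos h1, if_pos h2] at h
        simp only [Prod.mk.injEq, Nat.cast_inj] at h
        have h3 : posV n (i : ℕ) = posV n (i' : ℕ) := Prod.ext h.1 h.2
        have h4 := posV_inj (m := m) (a₁ := ⟨i, h1⟩) (a₂ := ⟨i', h2⟩) h3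
        exact Fin.ext (by simpa using congrArg Fin.val h4)
      · rw [if_pos h1, if_neg h2] at h
        simp only [Prod.mk.injEq] at h
        omega
    · by_cases h2 : (i' : ℕ) < size m n
      · rw [if_neg h1, if_pos h2] at h
        simp only [Prod.mk.injEq] at h
        omega
      · rw [if_neg h1, if_neg h2] at h
        simp only [Prod.mk.injEq] at h
        exact Fin.ext (by omega)
  · intro i j h
    simp only [plC, plV] at h
    by_cases h1 : (i : ℕ) < size m n
    · by_cases h2 : (j : ℕ) < size m n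
      · rw [if_pos h1, if_pos h2] at h
        simp only [Prod.mk.injEq, Nat.cast_inj] at h
        have h3 := posC_even n i
        have h4 := posV_odd n j
        omega
      · rw [if_pos h1, if_neg h2] at h
        simp only [Prod.mk.injEq] at h
        omega
    · by_cases h2 : (j : ℕ) < size m n
      · rw [if_neg h1, if_pos h2] at h
        simp only [Prod.mk.injEq] at h
        omega
      · rw [if_neg h1, if_neg h2] at h
        simp only [Prod.mk.injEq] at h
        omega
  · intro i j h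
    obtain ⟨h1, h2, h3⟩ := padM_cases _ i j h
    rw [h3] at h
    simp only [plC, plV]
    rw [if_pos h1, if_pos h2]
    simp only
    rcases ent_cases D ⟨i, h1⟩ ⟨j, h2⟩ h with ⟨g1, g0, _⟩ | ⟨g1, _⟩ | ⟨g1, g0, _⟩ | ⟨g1, _⟩
    · simp only at g1 g0
      rw [g1]
      simp only
      rw [Nat.cast_sub g0]
      norm_num
    · simp only at g1
      rw [g1]
      simp only
      push_cast
      rw [show ((posC n i).1 : ℤ) - ((posC n i).1 + 1) = -1 by ring]
      norm_num
    · simp only at g1 g0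
      rw [g1]
      simp only
      rw [Nat.cast_sub g0]
      norm_num
    · simp only at g1
      rw [g1]
      simp only
      push_cast
      rw [show ((posC n i).2 : ℤ) - ((posC n i).2 + 1) = -1 by ring]
      norm_num
  · by_cases h0 : padM (bigN k m n) (gmat D m n) i j = 0
    · exact Or.inl h0
    by_cases h1 : padM (bigN k m n) (gmat D m n) i j = 1
    · exact Or.inr (Or.inl h1)
    by_cases h2 : padM (bigN k m n) (gmat D m n) i j = -1
    · exact Or.inr (Or.inr (Or.inl h2))
    right; right; right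
    obtain ⟨a1, a2, a3⟩ := padM_cases _ i j h0
    rw [a3] at h0 h1 h2 ⊢
    have h3 := (ent_three D ⟨i, a1⟩ ⟨j, a2⟩ h0 h1 h2).2.2
    rw [h3] at h1 ⊢
    exact ⟨lt_of_le_of_ne (hD _ _).1 (Ne.symm h1), (hD _ _).2⟩
  · have h1 : {p : Fin (bigN k m n) × Fin (bigN k m n) |
        padM (bigN k m n) (gmat D m n) p.1 p.2 ≠ 0 ∧ padM (bigN k m n) (gmat D m n) p.1 p.2 ≠ 1 ∧
        padM (bigN k m n) (gmat D m n) p.1 p.2 ≠ -1}.ncard ≤ size m n := by
      have h2 : (Fin.castLE hSN '' (Set.univ : Set (Fin (size m n)))).ncard ≤ size m n := by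
        refine (Set.ncard_image_le (Set.toFinite _)).trans ?_
        rw [Set.ncard_univ, Nat.card_eq_fintype_card, Fintype.card_fin]
      refine le_trans (Set.ncard_le_ncard_of_injOn (fun p => p.1) ?_ ?_ (Set.toFinite _)) h2
      · intro p hp
        obtain ⟨a1, -, -⟩ := padM_cases _ p.1 p.2 hp.1
        exact ⟨⟨p.1, a1⟩, Set.mem_univ _, Fin.ext rfl⟩
      · rintro ⟨i, j⟩ hp ⟨i', j'⟩ hp' h
        simp only at h
        subst h
        rw [hrow i j j' hp hp']
    calc _ ≤ size m n ^ k := Nat.pow_le_pow_left h1 k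
      _ ≤ size m n ^ (k + 1) := Nat.pow_le_pow_right size_pos (by omega)
      _ ≤ _ := by unfold bigN; omega
  · obtain ⟨a1, a2, a3⟩ := padM_cases _ i j hi.1
    obtain ⟨b1, b2, b3⟩ := padM_cases _ i' j hi'.1
    simp only [Set.mem_ofPred_eq] at hi hi'
    rw [a3] at hi
    rw [b3] at hi'
    have := hG.col_one ⟨j, a2⟩ hi hi'
    exact Fin.ext (by simpa using congrArg Fin.val this)
  · refine ⟨⟨top n, top_lt.trans_le hSN⟩, ?_⟩
    funext i
    simp only [padV, grhs, Pi.single_apply]
    by_cases h : (i : ℕ) = top n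
    · rw [dif_pos (by rw [h]; exact top_lt), if_pos h, if_pos (Fin.ext h)]
    · rw [if_neg (fun e : i = ⟨top n, top_lt.trans_le hSN⟩ => h (by rw [e]))]
      split_ifs <;> rfl

end Pool.Agent.R533.NG
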