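import Pool.Agent.R533.NG.Bits

set_option autoImplicit false

/-! The algorithm decides all instances in strongly polynomial time. -/

namespace Pool.Agent.R533.NG

open Pool.Agent.H558R2 Pool.Agent.H622R3.SM Pool.Agent.R533.GU Pool.Agent.NPC

variable {m n : ℕ}

/-- Padding does not change the store. -/
theorem start_pad {S N : ℕ} (hSN : S ≤ N) (G : Matrix (Fin S) (Fin S) ℝ) (g : Fin S → ℝ) :
    start (padM N G) (padV N g) = start G g := by
  funext r
  unfold start
  split
  · rename_i i j
    by_cases h : i < S ∧ j < S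
    · rw [dif_pos h, dif_pos ⟨h.1.trans_le hSN, h.2.trans_le hSN⟩]
      unfold padM
      rw [dif_pos h]
    · rw [dif_neg h]
      split_ifs with h'
      · unfold padM
        rw [dif_neg h]
      · rfl
  · rename_i i
    by_cases h : i < S
    · rw [dif_pos h, dif_pos (h.trans_le hSN)]
      unfold padV
      rw [dif_pos h]
    · rw [dif_neg h]
      split_ifs with h'
      · unfold padV
        rw [dif_neg h]
      · rfl
  · rfl
  · rfl

theorem algN_run (O : Set (List Bool)) (k : ℕ) (α : Alg) (A : Matrix (Fin m) (Fin n) ℝ)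
    (b : Fin m → ℝ) (f : ℕ) (ans : Bool) (nums : List ℝ) (steps : ℕ)
    (hq : run O (α (bigN k m n) (bigN k m n)) f []
      (start (gmat (nd (theta k A b) A b) m n) (grhs ℝ m n)) = some (ans, nums, steps)) :
    run O (algN k α m n) (nt m n + f) [] (start A b) =
      some (ans, ((iniJ k m n (outs m n (start A b))).map fun I => vv k A b I.dst) ++ nums,
        nt m n + ((iniJ k m n (outs m n (start A b))).length + steps)) := by
  obtain ⟨ρ', h1, h2⟩ := iniJ_ok k A b
  have hl : (outs m n (start A b)).length = nt m n := by simp [outs]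
  have e1 : run O (algN k α m n) f (outs m n (start A b)) (start A b) =
      some (ans, ((iniJ k m n (outs m n (start A b))).map fun I => vv k A b I.dst) ++ nums,
        ((iniJ k m n (outs m n (start A b))).map fun I => vv k A b I.dst).length + steps) := by
    refine run_sim_start O (α (bigN k m n) (bigN k m n)) (algN k α m n) (outs m n (start A b))
      (iniJ k m n (outs m n (start A b))) _ (fun h hne => ?_) ?_ f _ (start A b) ρ' ans nums steps
      h1 h2 hq
    · have hpos : 0 < h.length := List.length_pos_iff.mpr hne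
      have e : (outs m n (start A b) ++ h).drop (nt m n) = h := by
        rw [← hl, List.drop_left]
      unfold algN
      rw [if_neg (by rw [List.length_append]; omega), if_neg (by rw [List.length_append]; omega),
        e]
      rfl
    · unfold algN
      rw [if_neg (by omega), if_pos hl, List.drop_eq_nil_of_le (by omega)]
  have e2 := run_tests O (algN k α m n) (reg n) (start A b) (nt m n) f _
    (fun h hh => by unfold algN; rw [if_pos hh]) (nt m n) le_rfl e1
  rw [Nat.sub_self] at e2
  rw [List.length_map] at e2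
  exact e2

/-- The data are not larger than the sum. -/
theorem dat_le (A : Matrix (Fin m) (Fin n) ℝ) (b : Fin m → ℝ) (R c : ℕ) :
    dat A b R c ≤ tsum A b (nt m n) := by
  have h0 := tsum_pos A b (nt m n)
  have h1 : ∀ i j, |ext A b i j| ≤ tsum A b (nt m n) := by
    intro i j
    by_cases hi : i < m
    · by_cases hj : j ≤ n
      · have ht : i * (n + 1) + j < nt m n := by
          unfold nt
          have h3 : (i + 1) * (n + 1) ≤ m * (n + 1) := Nat.mul_le_mul_right _ hi
          have h4 : (i + 1) * (n + 1) = i * (n + 1) + (n + 1) := by ring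
          omega
        have e1 : (i * (n + 1) + j) / (n + 1) = i := by
          rw [mul_comm, Nat.mul_add_div (by omega), Nat.div_eq_of_lt (by omega)]
          rfl
        have e2 : (i * (n + 1) + j) % (n + 1) = j := by
          rw [mul_comm, Nat.mul_add_mod, Nat.mod_eq_of_lt (by omega)]
        refine le_trans (le_of_eq ?_) (le_tsum A b _ ht)
        unfold reg
        rw [e1, e2]
        unfold ext
        rw [dif_pos hi]
        by_cases hj' : j < n
        · rw [dif_pos hj', if_pos hj', start_A A b i j hi hj']
        · rw [dif_neg hj', if_neg hj', if_pos (by omega), start_b A b i hi, abs_neg]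
      · unfold ext
        rw [dif_pos hi, dif_neg (by omega), if_neg (by omega), abs_zero]
        linarith
    · unfold ext
      rw [dif_neg hi, abs_zero]
      linarith
  have h2 : ∀ v : ℝ, |v| ≤ tsum A b (nt m n) → max v 0 ≤ tsum A b (nt m n) := by
    intro v hv
    exact max_le ((le_abs_self v).trans hv) (by linarith)
  unfold dat
  split_ifs
  · exact h2 _ (h1 _ _)
  · exact h2 _ (by rw [abs_neg]; exact h1 _ _)

/-- The data of the system on the grid are close to `1`. -/
theorem nd_close (k : ℕ) (A : Matrix (Fin m) (Fin n) ℝ) (b : Fin m → ℝ) (R c : ℕ) :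
    1 ≤ nd (theta k A b) A b R c ∧
      nd (theta k A b) A b R c ≤ 1 + 1 / 2 ^ ((bigN k m n + bigN k m n) ^ k) := by
  have h0 := theta_pos k A b
  have h1 := dat_nonneg A b R c
  have h2 := dat_le A b R c
  have h3 := tsum_pos A b (nt m n)
  have h4 : (0 : ℝ) < 2 ^ pw k m n := by positivity
  unfold nd
  refine ⟨by have := mul_nonneg h0.le h1; linarith, ?_⟩
  have h5 : theta k A b * dat A b R c ≤ 1 / 2 ^ pw k m n := by
    calc theta k A b * dat A b R c ≤ theta k A b * tsum A b (nt m n) :=
          mul_le_mul_of_nonneg_left h2 h0.le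
      _ = 1 / 2 ^ pw k m n := by
        unfold theta
        field_simp
  have h6 : (1 : ℝ) / 2 ^ ((bigN k m n + bigN k m n) ^ k) = 1 / 2 ^ pw k m n := rfl
  rw [h6]
  linarith

/-! ### The polynomial -/

/-- A bound for the size after padding. -/
noncomputable def nP (k : ℕ) : Polynomial ℕ := szP ^ (k + 1)

/-- A bound for the number of doublings. -/
noncomputable def wP (k : ℕ) : Polynomial ℕ := (nP k + nP k) ^ k

/-- A bound for the lengths of the numerators and denominators. -/
noncomputable def sP (k : ℕ) : Polynomial ℕ :=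
  wP k + (Polynomial.X + 1) ^ 2 * (Polynomial.X + 1) + Polynomial.X + 1

/-- The polynomial bound. -/
noncomputable def bigQ (k : ℕ) (p : Polynomial ℕ) : Polynomial ℕ :=
  (Polynomial.X + 1) ^ 2 + (5 + 2 * (Polynomial.X + 1) ^ 2 + wP k + 4 * szP) +
    p.comp (nP k + nP k) + (2 * sP k + 3) +
    p.comp ((nP k ^ 2 + nP k) * (2 * sP k + 3))

theorem bigQ_eval (k : ℕ) (p : Polynomial ℕ) (x : ℕ) :
    (bigQ k p).eval x = (x + 1) ^ 2 + (5 + 2 * (x + 1) ^ 2 + (wP k).eval x + 4 * szP.eval x) +
      p.eval ((nP k).eval x + (nP k).eval x) + (2 * (sP k).eval x + 3) +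
      p.eval (((nP k).eval x ^ 2 + (nP k).eval x) * (2 * (sP k).eval x + 3)) := by
  simp [bigQ, Polynomial.eval_comp]

theorem bigN_le (k x : ℕ) (h : size m n ≤ szP.eval x) : bigN k m n ≤ (nP k).eval x := by
  unfold bigN nP
  rw [Polynomial.eval_pow]
  exact Nat.pow_le_pow_left h _

theorem pw_le (k x : ℕ) (h : bigN k m n ≤ (nP k).eval x) : pw k m n ≤ (wP k).eval x := by
  unfold pw wP
  rw [Polynomial.eval_pow, Polynomial.eval_add]
  exact Nat.pow_le_pow_left (by omega) _

theorem sB_le (k x : ℕ) (h : pw k m n ≤ (wP k).eval x) (h' : nt m n ≤ (x + 1) ^ 2) :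
    sB k m n x ≤ (sP k).eval x := by
  have h1 : (sP k).eval x = (wP k).eval x + (x + 1) ^ 2 * (x + 1) + x + 1 := by
    simp [sP]
  rw [h1]
  have := Nat.mul_le_mul_right (x + 1) h'
  unfold sB
  omega

theorem decides_algN (O : Set (List Bool)) (k : ℕ) (α : Alg) (h : DecidesOn O (NearSystem k) α) :
    DecidesOn O (fun _ _ _ _ => True) (algN k α) := by
  obtain ⟨p, hp⟩ := h
  refine ⟨bigQ k p, fun m n hm hn A b _ => ?_⟩
  have hs1 : 1 ≤ bigN k m n := size_pos.trans (size_le_bigN k)
  have hSN := size_le_bigN (m := m) (n := n) k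
  obtain ⟨ans, nums, steps, h1, h2, h3, h4⟩ := hp (bigN k m n) (bigN k m n) hs1 hs1 _ _
    (near_system k (nd (theta k A b) A b) (nd_close k A b))
  rw [start_pad hSN] at h1
  have h5 := algN_run O k α A b _ ans nums steps h1
  have hsz : size m n ≤ szP.eval (m + n) := size_le _ (by omega) (by omega)
  have hN := bigN_le k (m + n) hsz
  have hW := pw_le k (m + n) hN
  have hnt : nt m n ≤ (m + n + 1) ^ 2 := nt_le _ (by omega) (by omega)
  have hpe : p.eval (bigN k m n + bigN k m n) ≤
      p.eval ((nP k).eval (m + n) + (nP k).eval (m + n)) := eval_mono p (by omega)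
  have hlen := iniJ_length (k := k) (m := m) (n := n) (outs m n (start A b))
  refine ⟨ans, _, _, run_mono O (algN k α m n) _ _ _ _ _ ?_ h5, ?_, ?_, ?_⟩
  · rw [bigQ_eval]; omega
  · rw [h2, pad_iff hSN, nd_iff _ (theta_pos k A b)]
  · rw [bigQ_eval]; omega
  · intro A' b' hA hb v hv
    have hm' := m_le A' b'
    have hn' := n_le hm A' b'
    have hsz' : size m n ≤ szP.eval (inputLength A' b') := size_le _ (by omega) (by omega)
    have hN' := bigN_le k _ hsz'
    have hW' := pw_le k _ hN'
    have hnt' : nt m n ≤ (inputLength A' b' + 1) ^ 2 := nt_le _ (by omega) (by omega)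
    have hs := sB_le k _ hW' hnt'
    have bA : ∀ i j, Bd (A i j) (inputLength A' b') := fun i j => by
      rw [← hA]; exact (Bd.of_rat _).mono (bit_A A' b' i j)
    have bb : ∀ i, Bd (b i) (inputLength A' b') := fun i => by
      rw [← hb]; exact (Bd.of_rat _).mono (bit_b A' b' i)
    rw [bigQ_eval]
    rcases List.mem_append.mp hv with hv | hv
    · obtain ⟨I, hI, rfl⟩ := List.mem_map.mp hv
      obtain ⟨q, e, hq⟩ := (bd_ini (k := k) bA bb I hI).rat
      exact ⟨q, e, by omega⟩
    · have hMq : ∀ i j, ∃ q : ℚ, (q : ℝ) =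
          padM (bigN k m n) (gmat (nd (theta k A b) A b) m n) i j ∧
          bitLength q ≤ 2 * sB k m n (inputLength A' b') + 3 := by
        intro i j
        refine Bd.rat ?_
        unfold padM
        split_ifs
        · exact bd_gmat bA bb _ _
        · exact Bd.zero.mono (Nat.zero_le _)
      have hgq : ∀ i, ∃ q : ℚ, (q : ℝ) = padV (bigN k m n) (grhs ℝ m n) i ∧
          bitLength q ≤ 2 * sB k m n (inputLength A' b') + 3 := by
        intro i
        refine Bd.rat ?_
        unfold padV
        split_ifs
        · exact bd_grhs _ _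
        · exact Bd.zero.mono (Nat.zero_le _)
      choose G hG1 hG2 using hMq
      choose g hg1 hg2 using hgq
      obtain ⟨q, e, hq⟩ := h4 G g hG1 hg1 v hv
      refine ⟨q, e, hq.trans ?_⟩
      have h8 : inputLength G g ≤ (bigN k m n ^ 2 + bigN k m n) *
          (2 * sB k m n (inputLength A' b') + 3) := by
        have g1 : ∑ i, ∑ j, bitLength (G i j) ≤ ∑ _i : Fin (bigN k m n), ∑ _j : Fin (bigN k m n),
            (2 * sB k m n (inputLength A' b') + 3) :=
          Finset.sum_le_sum fun i _ => Finset.sum_le_sum fun j _ => hG2 i j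
        have g2 : ∑ i, bitLength (g i) ≤ ∑ _i : Fin (bigN k m n),
            (2 * sB k m n (inputLength A' b') + 3) := Finset.sum_le_sum fun i _ => hg2 i
        simp only [Finset.sum_const, Finset.card_univ, Fintype.card_fin, smul_eq_mul] at g1 g2
        have g3 : inputLength G g = ∑ i, ∑ j, bitLength (G i j) + ∑ i, bitLength (g i) := rfl
        rw [g3]
        calc _ ≤ _ := Nat.add_le_add g1 g2
          _ = _ := by ring
      have h10 : (bigN k m n ^ 2 + bigN k m n) * (2 * sB k m n (inputLength A' b') + 3) ≤
          ((nP k).eval (inputLength A' b') ^ 2 + (nP k).eval (inputLength A' b')) *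
            (2 * (sP k).eval (inputLength A' b') + 3) :=
        Nat.mul_le_mul (Nat.add_le_add (Nat.pow_le_pow_left hN' 2) hN') (by omega)
      have h11 := eval_mono p (h8.trans h10)
      omega

theorem oracleFree_algN (k : ℕ) (α : Alg) (h : OracleFree α) : OracleFree (algN k α) := by
  intro m n l w
  have h1 := h (bigN k m n) (bigN k m n) (l.drop (nt m n))
  have h2 : ∀ w, renT (α (bigN k m n) (bigN k m n) (l.drop (nt m n))).2 ≠ Test.ask w := by
    intro w
    cases e : (α (bigN k m n) (bigN k m n) (l.drop (nt m n))).2 with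
    | sign r => simp [renT]
    | answer a => simp [renT]
    | ask w' => exact absurd e (h1 w')
  unfold algN
  split_ifs
  · simp
  · exact h2 w
  · exact h2 w

end Pool.Agent.R533.NG
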