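import Pool.Agent.R533.GU.Defs

set_option autoImplicit false

/-!
# Tiny perturbations of sparse systems with entries `0`, `1`, `-1` on the square grid
-/

namespace Pool.Agent.R533.NG

/-- A sparse system on the square grid `A x ≥ b` which is almost a system with entries `0`, `1`,
`-1`. The inequalities and the unknowns can be placed at distinct points of the plane with integer
coordinates such that an unknown occurs in an inequality only if their points are neighbours (at
distance one); every row and every column of `A` has at most three nonzero entries; all entries of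
`A` are `0`, `1` or `-1` except for at most `(m + n) ^ (1 / k)` entries, at most one in every row and
at most one in every column, which are real numbers larger than `1` by at most
`2 ^ (-(m + n) ^ k)`; `b` is a unit vector. -/
structure NearSystem (k m n : ℕ) (A : Matrix (Fin m) (Fin n) ℝ) (b : Fin m → ℝ) : Prop where
  /-- places of the inequalities and of the unknowns -/
  placed : ∃ (P : Fin m → ℤ × ℤ) (V : Fin n → ℤ × ℤ), P.Injective ∧ V.Injective ∧
    (∀ i j, P i ≠ V j) ∧
    ∀ i j, A i j ≠ 0 → |(P i).1 - (V j).1| + |(P i).2 - (V j).2| = 1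
  /-- at most three nonzero entries in a row -/
  row_le : ∀ i, {j | A i j ≠ 0}.ncard ≤ 3
  /-- at most three nonzero entries in a column -/
  col_le : ∀ j, {i | A i j ≠ 0}.ncard ≤ 3
  /-- the entries different from `0`, `1`, `-1` are slightly larger than `1` -/
  entries : ∀ i j, A i j = 0 ∨ A i j = 1 ∨ A i j = -1 ∨
    (1 < A i j ∧ A i j ≤ 1 + 1 / 2 ^ ((m + n) ^ k))
  /-- there are few of them -/
  few : {p : Fin m × Fin n | A p.1 p.2 ≠ 0 ∧ A p.1 p.2 ≠ 1 ∧ A p.1 p.2 ≠ -1}.ncard ^ k ≤ m + n
  /-- there is at most one of them in a row -/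
  row_one : ∀ i, {j | A i j ≠ 0 ∧ A i j ≠ 1 ∧ A i j ≠ -1}.Subsingleton
  /-- there is at most one of them in a column -/
  col_one : ∀ j, {i | A i j ≠ 0 ∧ A i j ≠ 1 ∧ A i j ≠ -1}.Subsingleton
  /-- the right-hand side is a unit vector -/
  rhs : ∃ i₀, b = Pi.single i₀ 1

end Pool.Agent.R533.NG
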