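import Pool.Agent.R533.NG.Alg

set_option autoImplicit false

/-! The initial program writes the system on the grid. -/

namespace Pool.Agent.R533.NG

open Pool.Agent.H558R2 Pool.Agent.H622R3.SM Pool.Agent.R533.GU

variable {m n : ℕ} {k : ℕ} {A : Matrix (Fin m) (Fin n) ℝ} {b : Fin m → ℝ}

/-- The instruction is good. -/
def GoodI (k : ℕ) (A : Matrix (Fin m) (Fin n) ℝ) (b : Fin m → ℝ) (I : Instr) : Prop :=
  ∃ r, I.dst = 5 :: r ∧ I.op ≠ Op.div ∧ I.fst ∈ Rd m n ∧ I.snd ∈ Rd m n ∧
    I.op.eval (vv k A b I.fst) (vv k A b I.snd) =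
      start (gmat (nd (theta k A b) A b) m n) (grhs ℝ m n) r

/-- All instructions of a row are good. -/
theorem row_goodJ (i : ℕ) (hi : i < size m n) (I : Instr)
    (hI : I ∈ rowJ m n (outs m n (start A b)) i) : GoodI k A b I := by
  have h4 := start_four (nd (theta k A b) A b) (grhs ℝ m n) i hi
  have h3 := tab_three (36 * typ m n ((posC n i).2 / 6) ((posC n i).1 / 6) +
    6 * ((posC n i).2 % 6) + (posC n i).1 % 6)
  rw [← kin_eq] at h3
  have zero : ∀ (j R c : ℕ) (dst : Reg), I ∈ entJ n (outs m n (start A b)) j R c dst → j ≠ 0 := by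
    intro j R c dst h e
    subst e
    simp [entJ] at h
  unfold rowJ at hI
  rw [List.mem_append, List.mem_append, List.mem_append] at hI
  rcases hI with hI | hI | hI | hI
  · have g1 := (good_entJ (k := k) (A := A) (b := b) _ _ _ (fun e => absurd e h3.1) _).1 I hI
    exact ⟨_, g1.1, g1.2.1, g1.2.2.1, g1.2.2.2.1,
      g1.2.2.2.2.trans (h4.1 (zero _ _ _ _ hI)).symm⟩
  · have g1 := (good_entJ (k := k) (A := A) (b := b) _ _ _ (fun e => absurd e h3.2.1) _).1 I hI
    exact ⟨_, g1.1, g1.2.1, g1.2.2.1, g1.2.2.2.1,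
      g1.2.2.2.2.trans (h4.2.1 (zero _ _ _ _ hI)).symm⟩
  · have g1 := (good_entJ (k := k) (A := A) (b := b) _ _ _ (fun e => kin_U3 _ _ e) _).1 I hI
    exact ⟨_, g1.1, g1.2.1, g1.2.2.1, g1.2.2.2.1,
      g1.2.2.2.2.trans (h4.2.2.1 (zero _ _ _ _ hI)).symm⟩
  · have g1 := (good_entJ (k := k) (A := A) (b := b) _ _ _ (fun e => absurd e h3.2.2) _).1 I hI
    exact ⟨_, g1.1, g1.2.1, g1.2.2.1, g1.2.2.2.1,
      g1.2.2.2.2.trans (h4.2.2.2 (zero _ _ _ _ hI)).symm⟩

variable (k A b) in
/-- All nonzero entries of a row are written. -/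
theorem row_coverJ (i j : Fin (size m n))
    (hI : ∀ I ∈ rowJ m n (outs m n (start A b)) i, I.dst ≠ [5, 0, (i : ℕ), (j : ℕ)]) :
    gmat (nd (theta k A b) A b) m n i j = 0 := by
  by_contra h
  have h3 := tab_three (36 * typ m n ((posC n i).2 / 6) ((posC n i).1 / 6) +
    6 * ((posC n i).2 % 6) + (posC n i).1 % 6)
  rw [← kin_eq] at h3
  have hst : gmat (nd (theta k A b) A b) m n i j =
      start (gmat (nd (theta k A b) A b) m n) (grhs ℝ m n) [0, (i : ℕ), (j : ℕ)] := by
    rw [start_A _ _ _ _ i.2 j.2]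
  have h4 := start_four (nd (theta k A b) A b) (grhs ℝ m n) i i.2
  have hj := posV_idx n j
  have key : ∀ (l : ℕ) (e : (l = 3 → 1 ≤ (posC n i).2 / 6 ∧ (posC n i).2 / 6 ≤ m ∧
      1 ≤ (posC n i).1 / 6 ∧ (posC n i).1 / 6 ≤ 2 * n + 2)),
      (∀ I ∈ entJ n (outs m n (start A b)) l ((posC n i).2 / 6) ((posC n i).1 / 6)
        [5, 0, (i : ℕ), (j : ℕ)], I ∈ rowJ m n (outs m n (start A b)) i) →
      val (nd (theta k A b) A b ((posC n i).2 / 6) ((posC n i).1 / 6)) l = 0 := by
    intro l e hsub
    have g1 := good_entJ (k := k) (A := A) (b := b) l _ _ e [5, 0, (i : ℕ), (j : ℕ)]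
    apply g1.2
    by_contra hne
    obtain ⟨I, hI'⟩ := List.exists_mem_of_ne_nil _ hne
    exact hI I (hsub I hI') (g1.1 I hI').1
  rcases ent_cases (nd (theta k A b) A b) i j h with ⟨h1, _, h2⟩ | ⟨h1, h2⟩ | ⟨h1, _, h2⟩ | ⟨h1, h2⟩
  · rw [h1] at hj
    simp only at hj
    apply h
    rw [hst]
    have e := h4.1 h2
    rw [hj] at e
    rw [e]
    refine key _ (fun e => absurd e h3.1) fun I hI' => ?_
    unfold rowJ
    rw [hj]
    exact List.mem_append_left _ hI'
  · rw [h1] at hj
    simp only at hj
    apply h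
    rw [hst]
    have e := h4.2.1 h2
    rw [hj] at e
    rw [e]
    refine key _ (fun e => absurd e h3.2.1) fun I hI' => ?_
    unfold rowJ
    rw [hj]
    exact List.mem_append_right _ (List.mem_append_left _ hI')
  · rw [h1] at hj
    simp only at hj
    apply h
    rw [hst]
    have e := h4.2.2.1 h2
    rw [hj] at e
    rw [e]
    refine key _ (fun e => kin_U3 _ _ e) fun I hI' => ?_
    unfold rowJ
    rw [hj]
    exact List.mem_append_right _ (List.mem_append_right _ (List.mem_append_left _ hI'))
  · rw [h1] at hj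
    simp only at hj
    apply h
    rw [hst]
    have e := h4.2.2.2 h2
    rw [hj] at e
    rw [e]
    refine key _ (fun e => absurd e h3.2.2) fun I hI' => ?_
    unfold rowJ
    rw [hj]
    exact List.mem_append_right _ (List.mem_append_right _ (List.mem_append_right _ hI'))

/-- All instructions of the second part are good. -/
theorem wr_good (I : Instr) (hI : I ∈ wrI m n (outs m n (start A b))) : GoodI k A b I := by
  unfold wrI at hI
  rw [List.mem_append, List.mem_flatMap] at hI
  rcases hI with ⟨i, hi, hI⟩ | hI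
  · exact row_goodJ i (List.mem_range.mp hi) I hI
  · rw [List.mem_cons, List.mem_singleton] at hI
    rcases hI with rfl | rfl
    · refine ⟨[1, top n], rfl, by simp, Or.inr (Or.inl rfl), Or.inl rfl, ?_⟩
      rw [start_b _ _ _ top_lt]
      simp [Op.eval, vv_two, vv_nil, grhs]
    · exact ⟨[2], rfl, by simp, Or.inr (Or.inl rfl), Or.inl rfl,
        by simp [Op.eval, vv_two, vv_nil, start]⟩

theorem ini_eq (I : Instr) (hI : I ∈ iniJ k m n (outs m n (start A b))) :
    vv k A b I.dst = I.op.eval (vv k A b I.fst) (vv k A b I.snd) ∧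
      (I.op = Op.div → vv k A b I.snd ≠ 0) := by
  unfold iniJ at hI
  rcases List.mem_append.mp hI with hI | hI
  · exact pre_eq k A b I hI
  · obtain ⟨r, h1, h2, -, -, h5⟩ := wr_good (k := k) I hI
    refine ⟨?_, fun h => absurd h h2⟩
    rw [h5, h1]
    rfl

theorem ini_ord : Ordd Base (iniJ k m n (outs m n (start A b))) := by
  unfold iniJ
  refine Ordd.append (pre_ord k _) (Ordd.all fun I hI => ?_)
  have hr : ∀ r ∈ Rd m n, r ∈ Base ∪ {r | ∃ I ∈ preI k m n (outs m n (start A b)),
      I.dst = r} := by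
    rintro r (rfl | rfl | ⟨t, ht, rfl⟩)
    · exact Or.inl nil_base
    · exact Or.inl two_base
    · refine Or.inr ⟨mulI n t, ?_, rfl⟩
      unfold preI
      simp only [List.mem_append, List.mem_map, List.mem_range]
      exact Or.inr (Or.inr (Or.inr (Or.inr (Or.inr ⟨t, ht, rfl⟩))))
  obtain ⟨r, -, -, h3, h4, -⟩ := wr_good (k := k) I hI
  exact ⟨hr _ h3, hr _ h4⟩

theorem rowJ_length (h : List Outcome) (i : ℕ) : (rowJ m n h i).length ≤ 4 := by
  have h0 : ∀ (k R c : ℕ) (dst : Reg), (entJ n h k R c dst).length ≤ 1 := by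
    intro k R c dst
    unfold entJ datJ posJ negJ
    split_ifs <;> simp
  unfold rowJ
  rw [List.length_append, List.length_append, List.length_append]
  have h1 := h0 (kin m n (posC n i).1 (posC n i).2).1 ((posC n i).2 / 6)
    ((posC n i).1 / 6) [5, 0, i, (posC n i).2 * wid n + ((posC n i).1 - 1) / 2]
  have h2 := h0 (kin m n (posC n i).1 (posC n i).2).2.1 ((posC n i).2 / 6)
    ((posC n i).1 / 6) [5, 0, i, (posC n i).2 * wid n + ((posC n i).1 + 1) / 2]
  have h3 := h0 (kin m n (posC n i).1 (posC n i).2).2.2.1 ((posC n i).2 / 6)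
    ((posC n i).1 / 6) [5, 0, i, ((posC n i).2 - 1) * wid n + (posC n i).1 / 2]
  have h4 := h0 (kin m n (posC n i).1 (posC n i).2).2.2.2 ((posC n i).2 / 6)
    ((posC n i).1 / 6) [5, 0, i, ((posC n i).2 + 1) * wid n + (posC n i).1 / 2]
  omega

theorem iniJ_length (h : List Outcome) :
    (iniJ k m n h).length ≤ 5 + 2 * nt m n + pw k m n + 4 * size m n := by
  unfold iniJ preI wrI
  simp only [List.length_append, List.length_flatMap, List.length_map, List.length_range,
    List.length_cons, List.length_nil]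
  have h1 : ∀ N : ℕ, ((List.range N).map fun i => (rowJ m n h i).length).sum ≤ 4 * N := by
    intro N
    induction N with
    | zero => simp
    | succ N ih =>
      rw [List.range_succ, List.map_append, List.sum_append]
      have := rowJ_length (m := m) (n := n) h N
      simp only [List.map_cons, List.map_nil, List.sum_cons, List.sum_nil]
      omega
  have h2 := h1 (size m n)
  omega

variable (k A b) in
/-- The store after the initial program. -/
theorem iniJ_ok :
    ∃ ρ', exec (iniJ k m n (outs m n (start A b))) (start A b) =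
        some (ρ', (iniJ k m n (outs m n (start A b))).map fun I => vv k A b I.dst) ∧
      ∀ r, ρ' (5 :: r) = start (gmat (nd (theta k A b) A b) m n) (grhs ℝ m n) r := by
  obtain ⟨ρ', h1, h2, -, h3⟩ := exec_val (vv k A b) (iniJ k m n (outs m n (start A b))) Base
    (start A b) ini_ord (fun r hr => (vv_base k A b hr).symm) (fun I hI => ini_eq I hI)
  refine ⟨ρ', h1, fun r => ?_⟩
  have hrow : ∀ {i : ℕ} (_ : i < size m n) {I : Instr}, I ∈ rowJ m n (outs m n (start A b)) i →
      I ∈ iniJ k m n (outs m n (start A b)) := by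
    intro i hi I hI
    unfold iniJ wrI
    exact List.mem_append_right _ (List.mem_append_left _ (List.mem_flatMap.mpr
      ⟨i, List.mem_range.mpr hi, hI⟩))
  have hl1 : (⟨Op.add, [5, 1, top n], [2], []⟩ : Instr) ∈
      iniJ k m n (outs m n (start A b)) := by
    unfold iniJ wrI
    simp
  have hl2 : (⟨Op.add, [5, 2], [2], []⟩ : Instr) ∈ iniJ k m n (outs m n (start A b)) := by
    unfold iniJ wrI
    simp
  by_cases h : ∃ I ∈ iniJ k m n (outs m n (start A b)), I.dst = 5 :: r
  · obtain ⟨I, hI, hd⟩ := h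
    rw [← hd, h2 I hI, hd]
    rfl
  · push Not at h
    rw [h3 (5 :: r) h, show start A b (5 :: r) = 0 by cases r <;> simp [start]]
    symm
    by_contra hne
    rcases start_cases (gmat (nd (theta k A b) A b) m n) (grhs ℝ m n) r with
      e | e | ⟨i, j, e, e'⟩ | ⟨i, e, e'⟩
    · exact hne e
    · -- the value is one
      rcases r with _ | ⟨a, _ | ⟨c, _ | ⟨d, _ | ⟨f, r⟩⟩⟩⟩
      · simp [start] at hne
      · by_cases ha : a = 2
        · subst ha
          exact h _ hl2 rfl
        · apply hne
          unfold start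
          split <;> simp_all
      · by_cases ha : a = 1
        · subst ha
          by_cases hc : c < size m n
          · rw [start_b _ _ _ hc] at hne
            unfold grhs at hne
            by_cases ht : c = top n
            · subst ht
              exact h _ hl1 rfl
            · exact hne (if_neg ht)
          · apply hne
            simp [start, hc]
        · apply hne
          unfold start
          split <;> simp_all
      · by_cases ha : a = 0
        · subst ha
          by_cases hc : c < size m n ∧ d < size m n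
          · rw [start_A _ _ _ _ hc.1 hc.2] at hne
            apply hne
            refine row_coverJ k A b ⟨c, hc.1⟩ ⟨d, hc.2⟩ fun I hI => ?_
            exact h I (hrow hc.1 hI)
          · apply hne
            simp [start, hc]
        · apply hne
          unfold start
          split <;> simp_all
      · apply hne
        unfold start
        split <;> simp_all
    · rw [e'] at hne
      apply hne
      subst e
      exact row_coverJ k A b i j fun I hI => h I (hrow i.2 hI)
    · rw [e'] at hne
      subst e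
      unfold grhs at hne
      by_cases ht : (i : ℕ) = top n
      · refine h _ hl1 ?_
        rw [ht]
      · exact hne (if_neg ht)

/-- The registers written by the initial program. -/
theorem ini_dst (I : Instr) (hI : I ∈ iniJ k m n (outs m n (start A b))) :
    (∃ t ≤ nt m n, I.dst = [6, t]) ∨ (∃ p ≤ pw k m n, I.dst = [8, p]) ∨ I.dst = [9] ∨
      (∃ t < nt m n, I.dst = [7, t]) ∨ ∃ r, I.dst = 5 :: r := by
  unfold iniJ at hI
  rcases List.mem_append.mp hI with hI | hI
  · unfold preI at hI
    simp only [List.mem_append, List.mem_singleton, List.mem_map, List.mem_range] at hI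
    rcases hI with rfl | ⟨t, ht, rfl⟩ | rfl | ⟨p, hp, rfl⟩ | rfl | ⟨t, ht, rfl⟩
    · exact Or.inl ⟨0, by omega, rfl⟩
    · refine Or.inl ⟨t + 1, by omega, ?_⟩
      unfold sumI
      split_ifs <;> rfl
    · exact Or.inr (Or.inl ⟨0, by omega, rfl⟩)
    · exact Or.inr (Or.inl ⟨p + 1, by omega, rfl⟩)
    · exact Or.inr (Or.inr (Or.inl rfl))
    · exact Or.inr (Or.inr (Or.inr (Or.inl ⟨t, ht, rfl⟩)))
  · obtain ⟨r, h1, -⟩ := wr_good (k := k) I hI
    exact Or.inr (Or.inr (Or.inr (Or.inr ⟨r, h1⟩)))

end Pool.Agent.R533.NG
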