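import Pool.Agent.R533.NG.Dec
import Pool.Agent.R533.GU.Pol

set_option autoImplicit false

/-! The algorithm is controlled in polynomial time. -/

namespace Pool.Agent.R533.NG

open Pool.Agent.NPC Pool.Agent.NPC.ER Pool.Agent.NPC.H612 Pool.Agent.H558R2 Pool.Agent.H622R3.SM
open Pool.Agent.R533.GU

variable {α : Type} [TEnc α]

attribute [local fun_prop] pWid

section ini

variable {m n R c t j i : α → ℕ} {h : α → List Outcome} {dst : α → Reg}

theorem pPosJ (hh : Poly h) (ht : Poly t) (hd : Poly dst) :
    Poly (fun a => posJ (h a) (t a) (dst a)) := by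
  have h2 := TPM.pInstr Op.add hd (g := fun _ => [2]) (k := fun a => [7, t a]) (by fun_prop)
    (by fun_prop)
  have h3 := TPM.pInstr Op.add hd (g := fun _ => [2]) (k := fun a => []) (by fun_prop)
    (by fun_prop)
  unfold posJ
  fun_prop

theorem pNegJ (hh : Poly h) (ht : Poly t) (hd : Poly dst) :
    Poly (fun a => negJ (h a) (t a) (dst a)) := by
  have h2 := TPM.pInstr Op.sub hd (g := fun _ => [2]) (k := fun a => [7, t a]) (by fun_prop)
    (by fun_prop)
  have h3 := TPM.pInstr Op.add hd (g := fun _ => [2]) (k := fun a => []) (by fun_prop)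
    (by fun_prop)
  unfold negJ
  fun_prop

theorem pDatJ (hn : Poly n) (hh : Poly h) (hR : Poly R) (hc : Poly c) (hd : Poly dst) :
    Poly (fun a => datJ (n a) (h a) (R a) (c a) (dst a)) := by
  have h1 : Poly (fun a => posJ (h a) ((R a - 1) * (n a + 1) + (c a - 1) / 2) (dst a)) :=
    pPosJ hh (by fun_prop) hd
  have h2 : Poly (fun a => negJ (h a) ((R a - 1) * (n a + 1) + (c a - 1) / 2) (dst a)) :=
    pNegJ hh (by fun_prop) hd
  unfold datJ
  fun_prop

theorem pEntJ (hn : Poly n) (hh : Poly h) (hj : Poly j) (hR : Poly R) (hc : Poly c)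
    (hd : Poly dst) : Poly (fun a => entJ (n a) (h a) (j a) (R a) (c a) (dst a)) := by
  have h1 := pDatJ hn hh hR hc hd
  have h2 := TPM.pInstr Op.add hd (g := fun _ => [2]) (k := fun _ => []) (by fun_prop)
    (by fun_prop)
  have h3 := TPM.pInstr Op.sub hd (g := fun _ => []) (k := fun _ => [2]) (by fun_prop)
    (by fun_prop)
  unfold entJ
  fun_prop

theorem pRowJ (hm : Poly m) (hn : Poly n) (hh : Poly h) (hi : Poly i) :
    Poly (fun a => rowJ (m a) (n a) (h a) (i a)) := by
  have h1 := pPosC hn hi
  have h2 : Poly (fun a => kin (m a) (n a) (posC (n a) (i a)).1 (posC (n a) (i a)).2) :=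
    pKin hm hn (by fun_prop) (by fun_prop)
  unfold rowJ
  refine Poly.append (pEntJ hn hh (by fun_prop) (by fun_prop) (by fun_prop) (by fun_prop))
    (Poly.append (pEntJ hn hh (by fun_prop) (by fun_prop) (by fun_prop) (by fun_prop))
    (Poly.append (pEntJ hn hh (by fun_prop) (by fun_prop) (by fun_prop) (by fun_prop))
    (pEntJ hn hh (by fun_prop) (by fun_prop) (by fun_prop) (by fun_prop))))

theorem pSumI (hn : Poly n) (hh : Poly h) (ht : Poly t) :
    Poly (fun a => sumI (n a) (h a) (t a)) := by
  have h1 := pReg hn ht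
  have h2 := TPM.pInstr Op.sub (f := fun a => [6, t a + 1]) (g := fun a => [6, t a])
    (by fun_prop) (by fun_prop) h1
  have h3 := TPM.pInstr Op.add (f := fun a => [6, t a + 1]) (g := fun a => [6, t a])
    (by fun_prop) (by fun_prop) h1
  unfold sumI
  fun_prop

theorem pDblI (ht : Poly t) : Poly (fun a => dblI (t a)) :=
  TPM.pInstr Op.add (f := fun a => [8, t a + 1]) (g := fun a => [8, t a])
    (k := fun a => [8, t a]) (by fun_prop) (by fun_prop) (by fun_prop)

theorem pMulI (hn : Poly n) (ht : Poly t) : Poly (fun a => mulI (n a) (t a)) :=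
  TPM.pInstr Op.mul (f := fun a => [7, t a]) (g := fun _ => [9]) (by fun_prop) (by fun_prop)
    (pReg hn ht)

end ini

section main

variable {U V : α → List Unit} {h : α → List Outcome}

theorem uBigN (k : ℕ) (hU : Poly U) (hV : Poly V) :
    UPoly (fun a => bigN k (U a).length (V a).length) := by
  have h := (uSize hU hV).eval (Polynomial.X ^ (k + 1))
  simp only [Polynomial.eval_pow, Polynomial.eval_X] at h
  exact h

theorem uPw (k : ℕ) (hU : Poly U) (hV : Poly V) :
    UPoly (fun a => pw k (U a).length (V a).length) := by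
  have h := ((uBigN k hU hV).add (uBigN k hU hV)).eval (Polynomial.X ^ k)
  simp only [Polynomial.eval_pow, Polynomial.eval_X] at h
  exact h

theorem uNt (hU : Poly U) (hV : Poly V) : UPoly (fun a => nt (U a).length (V a).length) := by
  unfold nt
  exact (UPoly.length hU).mul ((UPoly.length hV).add (UPoly.const 1))

theorem pPreI (k : ℕ) (hU : Poly U) (hV : Poly V) (hh : Poly h) :
    Poly (fun a => preI k (U a).length (V a).length (h a)) := by
  have hn := (uNt hU hV).toPoly
  have hw := (uPw k hU hV).toPoly
  have h1 := TPM.pInstr (α := α) Op.add (f := fun _ => [6, 0]) (g := fun _ => [2])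
    (k := fun _ => []) (by fun_prop) (by fun_prop) (by fun_prop)
  have h2 := TPM.pInstr (α := α) Op.add (f := fun _ => [8, 0])
    (g := fun a => [6, nt (U a).length (V a).length]) (k := fun _ => []) (by fun_prop)
    (by fun_prop) (by fun_prop)
  have h3 := TPM.pInstr (α := α) Op.div (f := fun _ => [9]) (g := fun _ => [2])
    (k := fun a => [8, pw k (U a).length (V a).length]) (by fun_prop)
    (by fun_prop) (by fun_prop)
  unfold preI
  refine Poly.append (by fun_prop) (Poly.append (Pool.Agent.NPC.Poly.map
    (F := fun a t => sumI (V a).length (h a) t) (uNt hU hV).range ?_)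
    (Poly.append (by fun_prop) (Poly.append (Pool.Agent.NPC.Poly.map (F := fun _ t => dblI t)
    (uPw k hU hV).range ?_) (Poly.append (by fun_prop) (Pool.Agent.NPC.Poly.map
    (F := fun a t => mulI (V a).length t) (uNt hU hV).range ?_)))))
  · exact pSumI (by fun_prop) (by fun_prop) (by fun_prop)
  · exact pDblI (by fun_prop)
  · exact pMulI (by fun_prop) (by fun_prop)

theorem pWrI (hU : Poly U) (hV : Poly V) (hh : Poly h) :
    Poly (fun a => wrI (U a).length (V a).length (h a)) := by
  have h1 : Poly (fun a => GU.top (V a).length) := by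
    unfold GU.top wid
    fun_prop
  have h2 := TPM.pInstr (α := α) Op.add (f := fun a => [5, 1, GU.top (V a).length])
    (g := fun _ => [2]) (k := fun _ => []) (by fun_prop) (by fun_prop) (by fun_prop)
  have h3 := TPM.pInstr (α := α) Op.add (f := fun _ => [5, 2])
    (g := fun _ => [2]) (k := fun _ => []) (by fun_prop) (by fun_prop) (by fun_prop)
  unfold wrI
  refine Poly.append (Poly.flatMap (F := fun a i => rowJ (U a).length (V a).length (h a) i)
    (uSize hU hV).range (pRowJ (by fun_prop) (by fun_prop) (by fun_prop) (by fun_prop))) ?_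
  fun_prop

end main

theorem polyControl_algN (k : ℕ) (β : Alg) (hβ : PolyControl β) : PolyControl (algN k β) := by
  have h1 : Poly (fun p : HistIn => β p.1.1.length p.1.2.length p.2) := t_COMP2 _ _ _ hβ
  have hs : Poly (fun p : HistIn => List.replicate (bigN k p.1.1.length p.1.2.length) ()) :=
    uBigN k (U := fun p : HistIn => p.1.1) (V := fun p => p.1.2) (by fun_prop) (by fun_prop)
  have hn : Poly (fun p : HistIn => nt p.1.1.length p.1.2.length) :=
    pNt (U := fun p : HistIn => p.1.1) (V := fun p => p.1.2) (by fun_prop) (by fun_prop)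
  have hi : Poly (fun p : HistIn => iniJ k p.1.1.length p.1.2.length p.2) :=
    Poly.append (pPreI k (U := fun p : HistIn => p.1.1) (V := fun p => p.1.2) (h := fun p => p.2)
      (by fun_prop) (by fun_prop) (by fun_prop)) (pWrI (U := fun p : HistIn => p.1.1)
      (V := fun p => p.1.2) (h := fun p => p.2) (by fun_prop) (by fun_prop) (by fun_prop))
  have hd : Poly (fun p : HistIn => p.2.drop (nt p.1.1.length p.1.2.length)) :=
    pDrop (by fun_prop) hn
  have h2 : Poly (fun p : HistIn => β (bigN k p.1.1.length p.1.2.length)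
      (bigN k p.1.1.length p.1.2.length) (p.2.drop (nt p.1.1.length p.1.2.length))) :=
    (h1.comp (Poly.pair (Poly.pair hs hs) hd)).congr fun p => by
      simp only [List.length_replicate]
  have h3 : Poly (fun p : HistIn => (β (bigN k p.1.1.length p.1.2.length)
      (bigN k p.1.1.length p.1.2.length)
      (p.2.drop (nt p.1.1.length p.1.2.length))).1.map renI) :=
    Pool.Agent.NPC.Poly.map (F := fun _ I => renI I) (Pool.Agent.NPC.Poly.fst h2)
      (pRenI (Pool.Agent.NPC.Poly.snd Pool.Agent.NPC.Poly.id))
  have h4 : Poly (fun p : HistIn => renT (β (bigN k p.1.1.length p.1.2.length)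
      (bigN k p.1.1.length p.1.2.length) (p.2.drop (nt p.1.1.length p.1.2.length))).2) :=
    pRenT (Pool.Agent.NPC.Poly.snd h2)
  have h5 : Poly (fun p : HistIn => Test.sign (reg p.1.2.length p.2.length)) :=
    pSign (pReg (by fun_prop) (by fun_prop))
  have h6 : Poly (fun p : HistIn => algN k β p.1.1.length p.1.2.length p.2) := by
    unfold algN
    fun_prop
  exact t_COMP _ _ _ h6

end Pool.Agent.R533.NG
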